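import Mathlib

/-!
# Witt-type Lie algebras, Weyl algebras and the maps `Ψ_𝐧`

Definitions used in the statements about problem `MP_8879ae_al`.
-/

open scoped TensorProduct DirectSum
open Polynomial LaurentPolynomial

namespace Pool.Agent.WittWeyl

attribute [local instance 100] LieRing.ofAssociativeRing

noncomputable section

/-! ## The Witt algebras `W_{-1} = ℂ[t]∂` and `W = ℂ[t,t⁻¹]∂` -/

/-- The Lie algebra `W_{-1} = ℂ[t]∂` of derivations of `ℂ[t]`. The coefficient `f` of `D = f∂`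
is `D t`. -/
abbrev WNeg : Type := Derivation ℂ ℂ[X] ℂ[X]

/-- The Lie algebra `W = ℂ[t,t⁻¹]∂` of derivations of `ℂ[t,t⁻¹]`. The coefficient `f` of `D = f∂`
is `D t`. -/
abbrev WFull : Type := Derivation ℂ ℂ[T;T⁻¹] ℂ[T;T⁻¹]

/-- The `k`-th divided power `D^k / k!` of a derivation `D`. -/
def dpow {B : Type} [CommRing B] [Algebra ℂ B] (D : Derivation ℂ B B) (k : ℕ) : B →ₗ[ℂ] B :=
  ((k.factorial : ℂ)⁻¹) • ((D : B →ₗ[ℂ] B) ^ k)

/-- The derivation `∂ = d/dt` of `ℂ[t]`. -/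
abbrev polyD : Derivation ℂ ℂ[X] ℂ[X] := Polynomial.derivative'

section Euler

variable {G : Type} [AddCommGroup G]

/-- The linear endomorphism of the group algebra `ℂ[G]` multiplying the monomial `T^g`
by `χ g`. -/
def eulerLin (χ : G →+ ℂ) : AddMonoidAlgebra ℂ G →ₗ[ℂ] AddMonoidAlgebra ℂ G :=
  (Finsupp.lsum ℂ fun g : G => χ g • AddMonoidAlgebra.lsingle (R := ℂ) (S := ℂ) g) ∘ₗ
    (AddMonoidAlgebra.coeffLinearEquiv ℂ : AddMonoidAlgebra ℂ G ≃ₗ[ℂ] G →₀ ℂ).toLinearMap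

theorem eulerLin_single (χ : G →+ ℂ) (g : G) (r : ℂ) :
    eulerLin χ (AddMonoidAlgebra.single g r) = AddMonoidAlgebra.single g (χ g * r) := by
  simp [eulerLin, AddMonoidAlgebra.coeffLinearEquiv]

/-- The derivation of the group algebra `ℂ[G]` multiplying the monomial `T^g` by `χ g`. -/
def euler (χ : G →+ ℂ) : Derivation ℂ (AddMonoidAlgebra ℂ G) (AddMonoidAlgebra ℂ G) :=
  Derivation.mk' (eulerLin χ) (by
    intro a b
    induction a using AddMonoidAlgebra.induction_linear with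
    | zero => simp
    | add f g hf hg => rw [add_mul, map_add, hf, hg, map_add]; simp only [smul_eq_mul]; ring
    | single m r =>
      induction b using AddMonoidAlgebra.induction_linear with
      | zero => simp
      | add f g hf hg => rw [mul_add, map_add, hf, hg, map_add]; simp only [smul_eq_mul]; ring
      | single m' r' =>
        simp only [AddMonoidAlgebra.single_mul_single, eulerLin_single, smul_eq_mul, map_add]
        rw [add_comm m' m, ← AddMonoidAlgebra.single_add]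
        congr 1; ring)

theorem euler_single (χ : G →+ ℂ) (g : G) (r : ℂ) :
    euler χ (AddMonoidAlgebra.single g r) = AddMonoidAlgebra.single g (χ g * r) :=
  eulerLin_single χ g r

end Euler

/-- The derivation `∂ = d/dt` of `ℂ[t,t⁻¹]`: `t^n ↦ n t^(n-1)`. -/
def laurentD : Derivation ℂ ℂ[T;T⁻¹] ℂ[T;T⁻¹] :=
  (T (-1) : ℂ[T;T⁻¹]) • euler (Int.castAddHom ℂ)

/-! ## The Lie algebras `𝔤_n = W_{≥0} / W_{≥n}` -/

/-- `W_{≥0} = tℂ[t]∂`, the span of the `e_i = t^{i+1}∂` with `i ≥ 0`. -/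
def WGe0 : LieSubalgebra ℂ WNeg where
  carrier := {D | (X : ℂ[X]) ∣ D X}
  add_mem' := by
    intro a b (ha : (X : ℂ[X]) ∣ a X) (hb : (X : ℂ[X]) ∣ b X)
    show (X : ℂ[X]) ∣ a X + b X
    exact dvd_add ha hb
  zero_mem' := by
    show (X : ℂ[X]) ∣ 0
    exact dvd_zero _
  smul_mem' := by
    intro c a (ha : (X : ℂ[X]) ∣ a X)
    show (X : ℂ[X]) ∣ c • a X
    rw [Polynomial.smul_eq_C_mul]
    exact Dvd.dvd.mul_left ha _
  lie_mem' := by
    intro a b (ha : (X : ℂ[X]) ∣ a X) (hb : (X : ℂ[X]) ∣ b X)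
    show (X : ℂ[X]) ∣ a (b X) - b (a X)
    obtain ⟨u, hu⟩ := ha
    obtain ⟨v, hv⟩ := hb
    rw [hu, hv, Derivation.leibniz, Derivation.leibniz, hu, hv]
    simp only [smul_eq_mul]
    refine dvd_sub (dvd_add (Dvd.intro _ rfl) ?_) (dvd_add (Dvd.intro _ rfl) ?_)
    · exact Dvd.dvd.mul_left (Dvd.intro _ rfl) _
    · exact Dvd.dvd.mul_left (Dvd.intro _ rfl) _

theorem mem_WGe0 (D : WNeg) : D ∈ WGe0 ↔ (X : ℂ[X]) ∣ D X := Iff.rfl

/-- `W_{≥n} = t^{n+1}ℂ[t]∂`, the span of the `e_i` with `i ≥ n`, as an ideal of `W_{≥0}`. -/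
def WGe (n : ℕ) : LieIdeal ℂ WGe0 where
  carrier := {D | (X : ℂ[X]) ^ (n + 1) ∣ D.1 X}
  add_mem' := by
    intro a b (ha : (X : ℂ[X]) ^ (n + 1) ∣ a.1 X) (hb : (X : ℂ[X]) ^ (n + 1) ∣ b.1 X)
    show (X : ℂ[X]) ^ (n + 1) ∣ a.1 X + b.1 X
    exact dvd_add ha hb
  zero_mem' := by
    show (X : ℂ[X]) ^ (n + 1) ∣ 0
    exact dvd_zero _
  smul_mem' := by
    intro c a (ha : (X : ℂ[X]) ^ (n + 1) ∣ a.1 X)
    show (X : ℂ[X]) ^ (n + 1) ∣ c • a.1 X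
    rw [Polynomial.smul_eq_C_mul]
    exact Dvd.dvd.mul_left ha _
  lie_mem := by
    intro a b (hb : (X : ℂ[X]) ^ (n + 1) ∣ b.1 X)
    obtain ⟨u, hu⟩ : (X : ℂ[X]) ∣ a.1 X := a.2
    obtain ⟨v, hv⟩ := hb
    show (X : ℂ[X]) ^ (n + 1) ∣ a.1 (b.1 X) - b.1 (a.1 X)
    rw [hu, hv, Derivation.leibniz, Derivation.leibniz, Derivation.leibniz_pow, hu, hv]
    simp only [smul_eq_mul, add_tsub_cancel_right]
    refine dvd_sub (dvd_add (Dvd.intro _ rfl) ?_) (dvd_add ?_ ?_)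
    · refine Dvd.intro (v * ((n + 1 : ℕ) * u)) ?_
      rw [nsmul_eq_mul]
      ring
    · obtain ⟨w, hw⟩ : ∃ w, b.1 u = (X : ℂ[X]) ^ (n + 1) * w := by
        refine ⟨v * derivative u, ?_⟩
        have h1 : ∀ p : ℂ[X], b.1 p = b.1 X * derivative p := by
          intro p
          have h2 : b.1 = Polynomial.mkDerivation ℂ (b.1 X) := by
            apply Polynomial.derivation_ext
            rw [Polynomial.mkDerivation_X]
          conv_lhs => rw [h2]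
          rw [Polynomial.mkDerivation_apply, smul_eq_mul, mul_comm]
        rw [h1, hv]; ring
      rw [hw]
      exact Dvd.dvd.mul_left (Dvd.intro _ rfl) _
    · exact Dvd.dvd.mul_left (Dvd.intro _ rfl) _

theorem mem_WGe (n : ℕ) (D : WGe0) : D ∈ WGe n ↔ (X : ℂ[X]) ^ (n + 1) ∣ D.1 X := Iff.rfl

/-- The Lie algebra `𝔤_n = W_{≥0} / W_{≥n}`. -/
def gLie (n : ℕ) : Type := WGe0 ⧸ WGe n

instance (n : ℕ) : LieRing (gLie n) := LieSubmodule.Quotient.lieQuotientLieRing (WGe n)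

instance (n : ℕ) : LieAlgebra ℂ (gLie n) := LieSubmodule.Quotient.lieQuotientLieAlgebra (WGe n)

/-- The element `e_i = t^{i+1}∂` of `W_{≥0}`. -/
def eVec (i : ℕ) : WGe0 :=
  ⟨Polynomial.mkDerivation ℂ (X ^ (i + 1)), (mem_WGe0 _).2 (by
    rw [Polynomial.mkDerivation_X]; exact Dvd.intro_left (X ^ i) (pow_succ X i).symm)⟩

/-- The class `v_i ∈ 𝔤_n` of `e_i = t^{i+1}∂`. -/
def gv (n i : ℕ) : gLie n := LieSubmodule.Quotient.mk (N := WGe n) (eVec i)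

/-- The direct sum `𝔤_𝐧 = 𝔤_{n_1} ⊕ ⋯ ⊕ 𝔤_{n_ℓ}`. -/
def gSum {l : ℕ} (n : Fin l → ℕ) : Type := ⨁ j, gLie (n j)

instance {l : ℕ} (n : Fin l → ℕ) : LieRing (gSum n) := DirectSum.lieRing (fun j => gLie (n j))

instance {l : ℕ} (n : Fin l → ℕ) : LieAlgebra ℂ (gSum n) :=
  DirectSum.lieAlgebra (fun j => gLie (n j))

/-- The inclusion of `𝔤_{n_j}` in `𝔤_𝐧`. -/
def gInc {l : ℕ} (n : Fin l → ℕ) (j : Fin l) : gLie (n j) →ₗ⁅ℂ⁆ gSum n :=
  DirectSum.lieAlgebraOf ℂ (Fin l) (fun j => gLie (n j)) j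

/-- The enveloping algebra `U(𝔤_𝐧)`. -/
def Ug {l : ℕ} (n : Fin l → ℕ) : Type := UniversalEnvelopingAlgebra ℂ (gSum n)

instance {l : ℕ} (n : Fin l → ℕ) : Ring (Ug n) := instRingUniversalEnvelopingAlgebra ℂ (gSum n)

instance {l : ℕ} (n : Fin l → ℕ) : Algebra ℂ (Ug n) :=
  instAlgebraUniversalEnvelopingAlgebra ℂ (gSum n)

/-- The class of `v_i ∈ 𝔤_{n_j}` in the enveloping algebra `U(𝔤_𝐧)`. -/
def gV {l : ℕ} (n : Fin l → ℕ) (j : Fin l) (i : ℕ) : Ug n :=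
  UniversalEnvelopingAlgebra.ι ℂ (gInc n j (gv (n j) i))

/-! ## Weyl algebras -/

/-- The defining relations of the Weyl algebra `A_k`, on generators `t_i` (`Sum.inl i`)
and `∂_i` (`Sum.inr i`). -/
inductive WeylRel (k : ℕ) :
    FreeAlgebra ℂ (Fin k ⊕ Fin k) → FreeAlgebra ℂ (Fin k ⊕ Fin k) → Prop
  | tt (i j : Fin k) : WeylRel k
      (FreeAlgebra.ι ℂ (Sum.inl i) * FreeAlgebra.ι ℂ (Sum.inl j))
      (FreeAlgebra.ι ℂ (Sum.inl j) * FreeAlgebra.ι ℂ (Sum.inl i))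
  | dd (i j : Fin k) : WeylRel k
      (FreeAlgebra.ι ℂ (Sum.inr i) * FreeAlgebra.ι ℂ (Sum.inr j))
      (FreeAlgebra.ι ℂ (Sum.inr j) * FreeAlgebra.ι ℂ (Sum.inr i))
  | dt (i j : Fin k) : WeylRel k
      (FreeAlgebra.ι ℂ (Sum.inr i) * FreeAlgebra.ι ℂ (Sum.inl j))
      (FreeAlgebra.ι ℂ (Sum.inl j) * FreeAlgebra.ι ℂ (Sum.inr i) + if i = j then 1 else 0)

/-- The `k`-th Weyl algebra `A_k`. -/
def Weyl (k : ℕ) : Type := RingQuot (WeylRel k)

instance (k : ℕ) : Ring (Weyl k) := RingQuot.instRing (WeylRel k)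

instance (k : ℕ) : Algebra ℂ (Weyl k) := RingQuot.instAlgebra (WeylRel k)

/-- The quotient map from the free algebra onto `A_k`. -/
def Weyl.mk (k : ℕ) : FreeAlgebra ℂ (Fin k ⊕ Fin k) →ₐ[ℂ] Weyl k :=
  RingQuot.mkAlgHom ℂ (WeylRel k)

/-- The generator `t_i` of `A_k`. -/
def Weyl.t {k : ℕ} (i : Fin k) : Weyl k := Weyl.mk k (FreeAlgebra.ι ℂ (Sum.inl i))

/-- The generator `∂_i` of `A_k`. -/
def Weyl.d {k : ℕ} (i : Fin k) : Weyl k := Weyl.mk k (FreeAlgebra.ι ℂ (Sum.inr i))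

/-- The generators of `Ã_k`. -/
inductive LocGen (k : ℕ) : Type
  /-- the generator `t_i` -/
  | t (i : Fin k)
  /-- the generator `t_i⁻¹` -/
  | tinv (i : Fin k)
  /-- the generator `∂_i` -/
  | d (i : Fin k)

/-- The defining relations of `Ã_k`: those of `A_k`, and `t_i t_i⁻¹ = 1 = t_i⁻¹ t_i`. -/
inductive WeylLocRel (k : ℕ) : FreeAlgebra ℂ (LocGen k) → FreeAlgebra ℂ (LocGen k) → Prop
  | tt (i j : Fin k) : WeylLocRel k
      (FreeAlgebra.ι ℂ (LocGen.t i) * FreeAlgebra.ι ℂ (LocGen.t j))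
      (FreeAlgebra.ι ℂ (LocGen.t j) * FreeAlgebra.ι ℂ (LocGen.t i))
  | dd (i j : Fin k) : WeylLocRel k
      (FreeAlgebra.ι ℂ (LocGen.d i) * FreeAlgebra.ι ℂ (LocGen.d j))
      (FreeAlgebra.ι ℂ (LocGen.d j) * FreeAlgebra.ι ℂ (LocGen.d i))
  | dt (i j : Fin k) : WeylLocRel k
      (FreeAlgebra.ι ℂ (LocGen.d i) * FreeAlgebra.ι ℂ (LocGen.t j))
      (FreeAlgebra.ι ℂ (LocGen.t j) * FreeAlgebra.ι ℂ (LocGen.d i) + if i = j then 1 else 0)
  | mul_inv (i : Fin k) : WeylLocRel k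
      (FreeAlgebra.ι ℂ (LocGen.t i) * FreeAlgebra.ι ℂ (LocGen.tinv i)) 1
  | inv_mul (i : Fin k) : WeylLocRel k
      (FreeAlgebra.ι ℂ (LocGen.tinv i) * FreeAlgebra.ι ℂ (LocGen.t i)) 1

/-- The algebra `Ã_k`, that is `A_k` with each `t_i` inverted. -/
def WeylLoc (k : ℕ) : Type := RingQuot (WeylLocRel k)

instance (k : ℕ) : Ring (WeylLoc k) := RingQuot.instRing (WeylLocRel k)

instance (k : ℕ) : Algebra ℂ (WeylLoc k) := RingQuot.instAlgebra (WeylLocRel k)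

/-- The quotient map from the free algebra onto `Ã_k`. -/
def WeylLoc.mk (k : ℕ) : FreeAlgebra ℂ (LocGen k) →ₐ[ℂ] WeylLoc k :=
  RingQuot.mkAlgHom ℂ (WeylLocRel k)

/-- The generator `t_i` of `Ã_k`. -/
def WeylLoc.t {k : ℕ} (i : Fin k) : WeylLoc k := WeylLoc.mk k (FreeAlgebra.ι ℂ (LocGen.t i))

/-- The generator `t_i⁻¹` of `Ã_k`. -/
def WeylLoc.tinv {k : ℕ} (i : Fin k) : WeylLoc k := WeylLoc.mk k (FreeAlgebra.ι ℂ (LocGen.tinv i))

/-- The generator `∂_i` of `Ã_k`. -/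
def WeylLoc.d {k : ℕ} (i : Fin k) : WeylLoc k := WeylLoc.mk k (FreeAlgebra.ι ℂ (LocGen.d i))

end

end Pool.Agent.WittWeyl
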