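import Mathlib
import Pool.Agent.Lib.MP_8879ae_al.Defs

open scoped TensorProduct DirectSum
open Polynomial LaurentPolynomial Finset

namespace Pool.Agent.WittWeyl

attribute [local instance 100] LieRing.ofAssociativeRing

noncomputable section

variable {B : Type} [CommRing B] [Algebra ℂ B] (D : Derivation ℂ B B)

theorem dpow_zero (f : B) : dpow D 0 f = f := by simp [dpow]

theorem D_dpow (k : ℕ) (f : B) : D (dpow D k f) = ((k : ℂ) + 1) • dpow D (k + 1) f := by
  have hk : ((k : ℂ) + 1) ≠ 0 := Nat.cast_add_one_ne_zero k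
  simp only [dpow, LinearMap.smul_apply, Derivation.map_smul, pow_succ', Module.End.mul_apply,
    smul_smul, Nat.factorial_succ, Nat.cast_mul, Nat.cast_add, Nat.cast_one, Derivation.coeFn_coe]
  congr 1
  have : (k.factorial : ℂ) ≠ 0 := Nat.cast_ne_zero.mpr (Nat.factorial_ne_zero k)
  field_simp

theorem dpow_D (k : ℕ) (f : B) : dpow D k (D f) = ((k : ℂ) + 1) • dpow D (k + 1) f := by
  have hk : ((k : ℂ) + 1) ≠ 0 := Nat.cast_add_one_ne_zero k
  simp only [dpow, LinearMap.smul_apply, pow_succ, Module.End.mul_apply,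
    smul_smul, Nat.factorial_succ, Nat.cast_mul, Nat.cast_add, Nat.cast_one, Derivation.coeFn_coe]
  congr 1
  have : (k.factorial : ℂ) ≠ 0 := Nat.cast_ne_zero.mpr (Nat.factorial_ne_zero k)
  field_simp

theorem dpow_mul (n : ℕ) (f g : B) :
    dpow D n (f * g) = ∑ p ∈ antidiagonal n, dpow D p.1 f * dpow D p.2 g := by
  induction n with
  | zero => simp [dpow_zero]
  | succ n ih =>
    have hn : ((n : ℂ) + 1) ≠ 0 := Nat.cast_add_one_ne_zero n
    have h1 : ((n : ℂ) + 1) • dpow D (n + 1) (f * g) =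
        ((n : ℂ) + 1) • ∑ p ∈ antidiagonal (n + 1), dpow D p.1 f * dpow D p.2 g := by
      rw [← D_dpow, ih, map_sum]
      have h2 : ∀ p ∈ antidiagonal n, D (dpow D p.1 f * dpow D p.2 g) =
          ((p.1 : ℂ) + 1) • (dpow D (p.1 + 1) f * dpow D p.2 g) +
          ((p.2 : ℂ) + 1) • (dpow D p.1 f * dpow D (p.2 + 1) g) := by
        intro p _
        rw [Derivation.leibniz, D_dpow, D_dpow, smul_eq_mul, smul_eq_mul, mul_smul_comm,
          mul_smul_comm, add_comm, mul_comm (dpow D p.2 g)]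
      rw [sum_congr rfl h2, sum_add_distrib]
      have h3 : ∑ p ∈ antidiagonal n, ((p.1 : ℂ) + 1) • (dpow D (p.1 + 1) f * dpow D p.2 g) =
          ∑ p ∈ antidiagonal (n + 1), (p.1 : ℂ) • (dpow D p.1 f * dpow D p.2 g) := by
        rw [Finset.Nat.sum_antidiagonal_succ]
        simp
      have h4 : ∑ p ∈ antidiagonal n, ((p.2 : ℂ) + 1) • (dpow D p.1 f * dpow D (p.2 + 1) g) =
          ∑ p ∈ antidiagonal (n + 1), (p.2 : ℂ) • (dpow D p.1 f * dpow D p.2 g) := by
        rw [Finset.Nat.sum_antidiagonal_succ']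
        simp
      rw [h3, h4, ← sum_add_distrib, smul_sum]
      refine sum_congr rfl fun p hp => ?_
      rw [← add_smul]
      congr 1
      rw [HasAntidiagonal.mem_antidiagonal] at hp
      exact_mod_cast hp
    exact (smul_right_injective B hn) h1

/-- The main identity behind the homomorphism property of `Ψ_n`. -/
theorem dpow_lie (m : ℕ) (f g : B) :
    dpow D (m + 1) (f * D g - D f * g) =
      f * D (dpow D (m + 1) g) - D (dpow D (m + 1) f) * g +
      ∑ p ∈ antidiagonal m, ((p.2 : ℂ) - p.1) • (dpow D (p.1 + 1) f * dpow D (p.2 + 1) g) := by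
  have h1 : dpow D (m + 1) (f * D g) =
      ∑ p ∈ antidiagonal (m + 2), (p.2 : ℂ) • (dpow D p.1 f * dpow D p.2 g) := by
    rw [dpow_mul, Finset.Nat.sum_antidiagonal_succ' (n := m + 1)]
    simp [dpow_D]
  have h2 : dpow D (m + 1) (D f * g) =
      ∑ p ∈ antidiagonal (m + 2), (p.1 : ℂ) • (dpow D p.1 f * dpow D p.2 g) := by
    rw [dpow_mul, Finset.Nat.sum_antidiagonal_succ (n := m + 1)]
    simp [dpow_D]
  rw [map_sub, h1, h2, ← sum_sub_distrib]
  simp only [← sub_smul]
  rw [Finset.Nat.antidiagonal_succ_succ', Finset.sum_cons, Finset.sum_cons, Finset.sum_map,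
    D_dpow, D_dpow, mul_smul_comm, smul_mul_assoc, dpow_zero, dpow_zero]
  have h3 : ∀ p ∈ antidiagonal m,
      ((((p.2 + 1 : ℕ) : ℂ)) - ((p.1 + 1 : ℕ) : ℂ)) • (dpow D (p.1 + 1) f * dpow D (p.2 + 1) g) =
      ((p.2 : ℂ) - p.1) • (dpow D (p.1 + 1) f * dpow D (p.2 + 1) g) := by
    intro p _
    congr 1
    push_cast; ring
  have h4 := sum_congr rfl h3
  simp only [Function.Embedding.prodMap, Function.Embedding.coeFn_mk, Prod.map]
  erw [h4]
  rw [← add_assoc]
  congr 1
  push_cast
  rw [zero_sub, neg_smul, sub_zero, sub_eq_add_neg]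
  congr 1
  · congr 1; ring
  · congr 2; ring

theorem sum_range_range_eq {M : Type} [AddCommMonoid M] (N : ℕ) (F : ℕ → ℕ → M)
    (hF : ∀ i j, N ≤ i + j → F i j = 0) :
    ∑ i ∈ range N, ∑ j ∈ range N, F i j = ∑ m ∈ range N, ∑ p ∈ antidiagonal m, F p.1 p.2 := by
  rw [← Finset.sum_product']
  have h1 : ∑ p ∈ range N ×ˢ range N, F p.1 p.2 =
      ∑ p ∈ (range N ×ˢ range N).filter (fun p => p.1 + p.2 < N), F p.1 p.2 := by
    rw [Finset.sum_filter]
    refine sum_congr rfl fun p _ => ?_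
    split_ifs with h
    · rfl
    · exact hF _ _ (not_lt.mp h)
  rw [h1, ← Finset.sum_fiberwise_of_maps_to (g := fun p : ℕ × ℕ => p.1 + p.2) (t := range N)]
  · refine sum_congr rfl fun m hm => sum_congr ?_ fun _ _ => rfl
    ext p
    simp only [mem_filter, mem_product, mem_range, HasAntidiagonal.mem_antidiagonal] at hm ⊢
    omega
  · intro p hp
    simp only [mem_filter] at hp
    exact mem_range.mpr hp.2

section Psi

variable {A : Type} [Ring A] [Algebra ℂ A]

/-- The formula for `Ψ_n(f∂)` in an abstract algebra. -/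
def psiFun (θ : B →ₐ[ℂ] A) (d : A) (V : ℕ → A) (N : ℕ) (f : B) : A :=
  θ f * d + ∑ i ∈ range N, θ (dpow D (i + 1) f) * V i

theorem psiFun_lie (θ : B →ₐ[ℂ] A) (d : A) (V : ℕ → A) (N : ℕ)
    (h1 : ∀ f, d * θ f = θ f * d + θ (D f))
    (h2 : ∀ f i, V i * θ f = θ f * V i)
    (h3 : ∀ i, d * V i = V i * d)
    (h4 : ∀ i j, V i * V j - V j * V i = ((j : ℂ) - i) • V (i + j))
    (h5 : ∀ m, N ≤ m → V m = 0) (f g : B) :
    psiFun D θ d V N (f * D g - D f * g) =
      psiFun D θ d V N f * psiFun D θ d V N g - psiFun D θ d V N g * psiFun D θ d V N f := by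
  have hc : ∀ a b : B, θ a * θ b = θ b * θ a := fun a b => by
    rw [← map_mul, ← map_mul, mul_comm]
  -- first bracket
  have e1 : θ f * d * (θ g * d) - θ g * d * (θ f * d) = θ (f * D g - D f * g) * d := by
    calc θ f * d * (θ g * d) - θ g * d * (θ f * d)
        = θ f * (d * θ g) * d - θ g * (d * θ f) * d := by noncomm_ring
      _ = θ f * (θ g * d + θ (D g)) * d - θ g * (θ f * d + θ (D f)) * d := by rw [h1, h1]
      _ = (θ f * θ g) * d * d - (θ g * θ f) * d * d + (θ f * θ (D g) - θ g * θ (D f)) * d := by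
          noncomm_ring
      _ = θ (f * D g - D f * g) * d := by
          rw [hc f g, sub_self, zero_add, map_sub, map_mul, map_mul, hc g (D f)]
  -- mixed brackets
  have e2 : ∀ a b : B, ∀ i, θ a * d * (θ b * V i) - θ b * V i * (θ a * d) = θ (a * D b) * V i := by
    intro a b i
    calc θ a * d * (θ b * V i) - θ b * V i * (θ a * d)
        = θ a * (d * θ b) * V i - θ b * (V i * θ a) * d := by noncomm_ring
      _ = θ a * (θ b * d + θ (D b)) * V i - θ b * (θ a * V i) * d := by rw [h1, h2]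
      _ = (θ a * θ b) * (d * V i) - (θ b * θ a) * (V i * d) + θ a * θ (D b) * V i := by
          noncomm_ring
      _ = θ (a * D b) * V i := by rw [h3, hc a b, sub_self, zero_add, map_mul]
  have e3 : ∀ a b : B, ∀ i j, θ a * V i * (θ b * V j) - θ b * V j * (θ a * V i) =
      ((j : ℂ) - i) • (θ (a * b) * V (i + j)) := by
    intro a b i j
    calc θ a * V i * (θ b * V j) - θ b * V j * (θ a * V i)
        = θ a * (V i * θ b) * V j - θ b * (V j * θ a) * V i := by noncomm_ring
      _ = θ a * (θ b * V i) * V j - θ b * (θ a * V j) * V i := by rw [h2, h2]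
      _ = (θ a * θ b) * (V i * V j) - (θ b * θ a) * (V j * V i) := by noncomm_ring
      _ = (θ a * θ b) * (V i * V j - V j * V i) := by rw [hc b a, mul_sub]
      _ = ((j : ℂ) - i) • (θ (a * b) * V (i + j)) := by rw [h4, mul_smul_comm, map_mul]
  unfold psiFun
  set F : ℕ → A := fun i => θ (dpow D (i + 1) f) with hF
  set G : ℕ → A := fun i => θ (dpow D (i + 1) g) with hG
  have expand : (θ f * d + ∑ i ∈ range N, F i * V i) * (θ g * d + ∑ i ∈ range N, G i * V i) -
      (θ g * d + ∑ i ∈ range N, G i * V i) * (θ f * d + ∑ i ∈ range N, F i * V i) =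
      (θ f * d * (θ g * d) - θ g * d * (θ f * d)) +
      ∑ i ∈ range N, (θ f * d * (G i * V i) - G i * V i * (θ f * d)) -
      ∑ i ∈ range N, (θ g * d * (F i * V i) - F i * V i * (θ g * d)) +
      ∑ i ∈ range N, ∑ j ∈ range N, (F i * V i * (G j * V j) - G j * V j * (F i * V i)) := by
    simp only [Finset.sum_sub_distrib, ← Finset.mul_sum, ← Finset.sum_mul]
    noncomm_ring
  rw [expand, e1]
  simp only [hF, hG, e2, e3]
  rw [sum_range_range_eq N (fun i j => ((j : ℂ) - i) •
    (θ (dpow D (i + 1) f * dpow D (j + 1) g) * V (i + j))) (by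
      intro i j hij
      simp only [h5 _ hij, mul_zero, smul_zero])]
  rw [add_sub_assoc, ← Finset.sum_sub_distrib, add_assoc, ← Finset.sum_add_distrib]
  congr 1
  refine sum_congr rfl fun m _ => ?_
  rw [dpow_lie, map_add, map_sub, map_sum, add_mul, sub_mul, Finset.sum_mul,
    mul_comm g (D _)]
  congr 1
  refine sum_congr rfl fun p hp => ?_
  rw [HasAntidiagonal.mem_antidiagonal] at hp
  rw [hp, map_smul, smul_mul_assoc]

theorem psiFun_commute {B' : Type} [CommRing B'] [Algebra ℂ B'] (D' : Derivation ℂ B' B')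
    (θ : B →ₐ[ℂ] A) (d : A) (V : ℕ → A) (N : ℕ)
    (θ' : B' →ₐ[ℂ] A) (d' : A) (V' : ℕ → A) (N' : ℕ)
    (h11 : ∀ f g, Commute (θ f) (θ' g)) (h12 : ∀ f, Commute (θ f) d')
    (h13 : ∀ f i, Commute (θ f) (V' i)) (h21 : ∀ g, Commute d (θ' g)) (h22 : Commute d d')
    (h23 : ∀ i, Commute d (V' i)) (h31 : ∀ i g, Commute (V i) (θ' g))
    (h32 : ∀ i, Commute (V i) d') (h33 : ∀ i j, Commute (V i) (V' j)) (f : B) (g : B') :
    Commute (psiFun D θ d V N f) (psiFun D' θ' d' V' N' g) := by
  unfold psiFun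
  have key : ∀ x : A, (∀ f, Commute (θ f) x) → Commute d x → (∀ i, Commute (V i) x) →
      Commute (θ f * d + ∑ i ∈ range N, θ (dpow D (i + 1) f) * V i) x := by
    intro x h1 h2 h3
    refine Commute.add_left ((h1 f).mul_left h2) ?_
    exact Commute.sum_left _ _ _ fun i _ => (h1 _).mul_left (h3 i)
  refine Commute.add_right ?_ ?_
  · refine Commute.mul_right ?_ ?_
    · exact key _ (fun f => h11 f g) (h21 g) (fun i => h31 i g)
    · exact key _ h12 h22 h32
  · refine Commute.sum_right _ _ _ fun i _ => ?_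
    refine Commute.mul_right ?_ ?_
    · exact key _ (fun f => h11 f _) (h21 _) (fun i => h31 i _)
    · exact key _ (fun f => h13 f i) (h23 i) (fun j => h33 j i)

/-- Sums of mutually commuting solutions of the homomorphism identity. -/
theorem sum_lie {ι : Type} [Fintype ι] [DecidableEq ι] (ψ : ι → B → A)
    (hψ : ∀ j f g, ψ j (f * D g - D f * g) = ψ j f * ψ j g - ψ j g * ψ j f)
    (hcomm : ∀ j k, j ≠ k → ∀ f g, ψ j f * ψ k g = ψ k g * ψ j f) (f g : B) :
    ∑ j, ψ j (f * D g - D f * g) =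
      (∑ j, ψ j f) * (∑ j, ψ j g) - (∑ j, ψ j g) * (∑ j, ψ j f) := by
  rw [Finset.sum_mul_sum, Finset.sum_mul_sum, Finset.sum_comm (s := univ) (t := univ)
    (f := fun i j => ψ i g * ψ j f), ← Finset.sum_sub_distrib]
  refine sum_congr rfl fun j _ => ?_
  rw [← Finset.sum_sub_distrib, Finset.sum_eq_single j]
  · exact hψ j f g
  · intro k _ hk
    rw [hcomm j k (Ne.symm hk), sub_self]
  · intro h; exact absurd (mem_univ j) h

end Psi

end

end Pool.Agent.WittWeyl
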