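import Mathlib
import Pool.Agent.Lib.MP_8879ae_al.LieLemmas

/-!
# The core argument

Differential operators on a two-variable function ring, and the impossibility of a factorisation.
-/

open Polynomial Finset

namespace Pool.Agent.WittWeyl

noncomputable section

/-! ## Locally nilpotent derivations of noncommutative rings -/

section Nil

variable {A : Type} [Ring A] [Algebra ℂ A]

theorem leibniz_iter (δ : Module.End ℂ A) (hδ : ∀ a b, δ (a * b) = δ a * b + a * δ b)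
    (n : ℕ) (a b : A) :
    (δ ^ n) (a * b) = ∑ p ∈ antidiagonal n, n.choose p.1 • ((δ ^ p.1) a * (δ ^ p.2) b) := by
  induction n with
  | zero => simp
  | succ n ih =>
    rw [Finset.sum_antidiagonal_choose_succ_nsmul (fun i j => (δ ^ i) a * (δ ^ j) b), pow_succ',
      Module.End.mul_apply, ih, map_sum, ← Finset.sum_add_distrib]
    refine sum_congr rfl fun p hp => ?_
    rw [map_nsmul, hδ, nsmul_add, add_comm]
    rw [HasAntidiagonal.mem_antidiagonal] at hp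
    congr 1
    · rw [pow_succ' δ p.2, Module.End.mul_apply]
    · rw [pow_succ' δ p.1, Module.End.mul_apply, Nat.choose_symm_of_eq_add hp.symm]

theorem pow_apply_eq_zero_of_le {δ : Module.End ℂ A} {a : A} {m n : ℕ} (h : (δ ^ m) a = 0)
    (hmn : m ≤ n) : (δ ^ n) a = 0 := by
  obtain ⟨k, rfl⟩ := Nat.exists_eq_add_of_le hmn
  rw [add_comm, pow_add, Module.End.mul_apply, h, map_zero]

theorem nil_mul {δ : Module.End ℂ A} (hδ : ∀ a b, δ (a * b) = δ a * b + a * δ b)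
    {a b : A} {p q : ℕ} (ha : (δ ^ p) a = 0) (hb : (δ ^ q) b = 0) : (δ ^ (p + q)) (a * b) = 0 := by
  rw [leibniz_iter δ hδ]
  refine sum_eq_zero fun r hr => ?_
  rw [HasAntidiagonal.mem_antidiagonal] at hr
  rcases le_or_gt p r.1 with h | h
  · rw [pow_apply_eq_zero_of_le ha h, zero_mul, smul_zero]
  · rw [pow_apply_eq_zero_of_le hb (by omega : q ≤ r.2), mul_zero, smul_zero]

theorem top_mul {δ : Module.End ℂ A} (hδ : ∀ a b, δ (a * b) = δ a * b + a * δ b)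
    {a b : A} {p q : ℕ} (ha : (δ ^ (p + 1)) a = 0) (hb : (δ ^ (q + 1)) b = 0) :
    (δ ^ (p + q)) (a * b) = (p + q).choose p • ((δ ^ p) a * (δ ^ q) b) := by
  rw [leibniz_iter δ hδ, Finset.sum_eq_single (p, q)]
  · intro r hr hne
    rw [HasAntidiagonal.mem_antidiagonal] at hr
    rcases lt_trichotomy r.1 p with h | h | h
    · rw [pow_apply_eq_zero_of_le hb (by omega : q + 1 ≤ r.2), mul_zero, smul_zero]
    · exfalso; apply hne; ext
      · exact h
      · simp only; omega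
    · rw [pow_apply_eq_zero_of_le ha (by omega : p + 1 ≤ r.1), zero_mul, smul_zero]
  · intro h
    exact absurd (by simp) h

theorem exists_top {δ : Module.End ℂ A} {a : A} (ha : a ≠ 0) (hn : ∃ n, (δ ^ n) a = 0) :
    ∃ p, (δ ^ p) a ≠ 0 ∧ (δ ^ (p + 1)) a = 0 := by
  classical
  have h0 : Nat.find hn ≠ 0 := by
    intro h
    have := Nat.find_spec hn
    rw [h] at this
    exact ha (by simpa using this)
  obtain ⟨p, hp⟩ := Nat.exists_eq_succ_of_ne_zero h0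
  refine ⟨p, Nat.find_min hn (by omega), ?_⟩
  have := Nat.find_spec hn
  rwa [hp] at this

theorem pow_mul_const {δ : Module.End ℂ A} (hδ : ∀ a b, δ (a * b) = δ a * b + a * δ b)
    {s : A} (hs : δ s = 0) (n : ℕ) (a : A) : (δ ^ n) (a * s) = (δ ^ n) a * s := by
  induction n with
  | zero => simp
  | succ n ih => rw [pow_succ', Module.End.mul_apply, Module.End.mul_apply, ih, hδ, hs, mul_zero, add_zero]

theorem pow_const_mul {δ : Module.End ℂ A} (hδ : ∀ a b, δ (a * b) = δ a * b + a * δ b)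
    {s : A} (hs : δ s = 0) (n : ℕ) (a : A) : (δ ^ n) (s * a) = s * (δ ^ n) a := by
  induction n with
  | zero => simp
  | succ n ih => rw [pow_succ', Module.End.mul_apply, Module.End.mul_apply, ih, hδ, hs, zero_mul, zero_add]

/-- A pair of commuting derivations whose common kernel has no zero divisors. -/
structure Pair (A : Type) [Ring A] [Algebra ℂ A] where
  δ₁ : Module.End ℂ A
  δ₂ : Module.End ℂ A
  h₁ : ∀ a b, δ₁ (a * b) = δ₁ a * b + a * δ₁ b
  h₂ : ∀ a b, δ₂ (a * b) = δ₂ a * b + a * δ₂ b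
  comm : Commute δ₁ δ₂
  nzd : ∀ a b, δ₁ a = 0 → δ₂ a = 0 → δ₁ b = 0 → δ₂ b = 0 → a * b = 0 → a = 0 ∨ b = 0

namespace Pair

variable (Q : Pair A)

theorem d_one {δ : Module.End ℂ A} (hδ : ∀ a b, δ (a * b) = δ a * b + a * δ b) : δ 1 = 0 := by
  have := hδ 1 1
  simp only [mul_one, one_mul] at this
  exact left_eq_add.mp this

theorem d_algebraMap {δ : Module.End ℂ A} (hδ : ∀ a b, δ (a * b) = δ a * b + a * δ b) (c : ℂ) :
    δ (algebraMap ℂ A c) = 0 := by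
  rw [Algebra.algebraMap_eq_smul_one, map_smul, d_one hδ, smul_zero]

/-- The subalgebra of elements on which both derivations are nilpotent. -/
def sub : Subalgebra ℂ A where
  carrier := {a | (∃ n, (Q.δ₁ ^ n) a = 0) ∧ (∃ n, (Q.δ₂ ^ n) a = 0)}
  mul_mem' := by
    rintro a b ⟨⟨p, hp⟩, ⟨p', hp'⟩⟩ ⟨⟨q, hq⟩, ⟨q', hq'⟩⟩
    exact ⟨⟨p + q, nil_mul Q.h₁ hp hq⟩, ⟨p' + q', nil_mul Q.h₂ hp' hq'⟩⟩
  add_mem' := by
    rintro a b ⟨⟨p, hp⟩, ⟨p', hp'⟩⟩ ⟨⟨q, hq⟩, ⟨q', hq'⟩⟩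
    refine ⟨⟨p + q, ?_⟩, ⟨p' + q', ?_⟩⟩
    · rw [map_add, pow_apply_eq_zero_of_le hp (by omega), pow_apply_eq_zero_of_le hq (by omega),
        add_zero]
    · rw [map_add, pow_apply_eq_zero_of_le hp' (by omega), pow_apply_eq_zero_of_le hq' (by omega),
        add_zero]
  algebraMap_mem' := by
    intro c
    exact ⟨⟨1, by rw [pow_one, d_algebraMap Q.h₁]⟩, ⟨1, by rw [pow_one, d_algebraMap Q.h₂]⟩⟩

theorem mem_sub (a : A) :
    a ∈ Q.sub ↔ (∃ n, (Q.δ₁ ^ n) a = 0) ∧ (∃ n, (Q.δ₂ ^ n) a = 0) := Iff.rfl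

/-- Top coefficient with respect to `δ₁`, then `δ₂`. -/
theorem exists_lead {a : A} (ha : a ∈ Q.sub) (h0 : a ≠ 0) :
    ∃ p q, (Q.δ₁ ^ p) a ≠ 0 ∧ (Q.δ₁ ^ (p + 1)) a = 0 ∧ (Q.δ₂ ^ q) ((Q.δ₁ ^ p) a) ≠ 0 ∧
      (Q.δ₂ ^ (q + 1)) ((Q.δ₁ ^ p) a) = 0 ∧ Q.δ₁ ((Q.δ₂ ^ q) ((Q.δ₁ ^ p) a)) = 0 ∧
      Q.δ₂ ((Q.δ₂ ^ q) ((Q.δ₁ ^ p) a)) = 0 := by
  obtain ⟨h1, ⟨m, h2⟩⟩ := ha
  obtain ⟨p, hp, hp'⟩ := exists_top h0 h1
  have h3 : ∃ n, (Q.δ₂ ^ n) ((Q.δ₁ ^ p) a) = 0 := by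
    refine ⟨m, ?_⟩
    rw [← Module.End.mul_apply, ((Q.comm.pow_pow p m).symm).eq, Module.End.mul_apply, h2, map_zero]
  obtain ⟨q, hq, hq'⟩ := exists_top hp h3
  refine ⟨p, q, hp, hp', hq, hq', ?_, ?_⟩
  · rw [← Module.End.mul_apply, (Q.comm.pow_right q).eq, Module.End.mul_apply,
      ← Module.End.mul_apply Q.δ₁, ← pow_succ', hp', map_zero]
  · rw [← Module.End.mul_apply, ← pow_succ', hq']

theorem nzd_sub {a b : A} (ha : a ∈ Q.sub) (hb : b ∈ Q.sub) (hab : a * b = 0) : a = 0 ∨ b = 0 := by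
  by_contra hcon
  rw [not_or] at hcon
  obtain ⟨p, q, h1, h2, h3, h4, h5, h6⟩ := Q.exists_lead ha hcon.1
  obtain ⟨p', q', h1', h2', h3', h4', h5', h6'⟩ := Q.exists_lead hb hcon.2
  have e1 : (Q.δ₁ ^ p) a * (Q.δ₁ ^ p') b = 0 := by
    have := top_mul Q.h₁ h2 h2'
    rw [hab, map_zero] at this
    have hc : (p + p').choose p ≠ 0 := (Nat.choose_pos (by omega)).ne'
    rw [← Nat.cast_smul_eq_nsmul ℂ] at this
    rcases smul_eq_zero.mp this.symm with h | h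
    · exact absurd (Nat.cast_eq_zero.mp h) hc
    · exact h
  have e2 : (Q.δ₂ ^ q) ((Q.δ₁ ^ p) a) * (Q.δ₂ ^ q') ((Q.δ₁ ^ p') b) = 0 := by
    have := top_mul Q.h₂ h4 h4'
    rw [e1, map_zero] at this
    have hc : (q + q').choose q ≠ 0 := (Nat.choose_pos (by omega)).ne'
    rw [← Nat.cast_smul_eq_nsmul ℂ] at this
    rcases smul_eq_zero.mp this.symm with h | h
    · exact absurd (Nat.cast_eq_zero.mp h) hc
    · exact h
  rcases Q.nzd _ _ h5 h6 h5' h6' e2 with h | h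
  · exact h3 h
  · exact h3' h

theorem nil_mul_sharp {δ : Module.End ℂ A} (hδ : ∀ a b, δ (a * b) = δ a * b + a * δ b)
    {a b : A} {p q : ℕ} (ha : (δ ^ (p + 1)) a = 0) (hb : (δ ^ (q + 1)) b = 0) :
    (δ ^ (p + q + 1)) (a * b) = 0 := by
  rw [leibniz_iter δ hδ]
  refine sum_eq_zero fun r hr => ?_
  rw [HasAntidiagonal.mem_antidiagonal] at hr
  rcases le_or_gt (p + 1) r.1 with h | h
  · rw [pow_apply_eq_zero_of_le ha h, zero_mul, smul_zero]
  · rw [pow_apply_eq_zero_of_le hb (by omega : q + 1 ≤ r.2), mul_zero, smul_zero]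

theorem const_of_quadratic {δ : Module.End ℂ A} (hδ : ∀ a b, δ (a * b) = δ a * b + a * δ b)
    (S : Subalgebra ℂ A) (hS : ∀ n, ∀ a ∈ S, (δ ^ n) a ∈ S) (hnil : ∀ a ∈ S, ∃ n, (δ ^ n) a = 0)
    (hnz : ∀ a ∈ S, ∀ b ∈ S, a * b = 0 → a = 0 ∨ b = 0)
    {x τ s₁ s₂ : A} (hx : x ∈ S) (hτ : τ ∈ S) (hs₁ : δ s₁ = 0) (hs₂ : δ s₂ = 0) (h0 : τ ≠ 0)
    (h : x * (x * τ) = x * τ * s₁ - τ * s₂) : δ x = 0 := by
  by_contra hcon
  have hx0 : x ≠ 0 := by rintro rfl; exact hcon (map_zero _)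
  obtain ⟨p, hp, hp'⟩ := exists_top hx0 (hnil x hx)
  obtain ⟨q, hq, hq'⟩ := exists_top h0 (hnil τ hτ)
  have hp1 : 1 ≤ p := by
    by_contra hlt
    have : p = 0 := by omega
    subst this
    exact hcon (by simpa using hp')
  have e1 := top_mul hδ hp' hq'
  have e2 := nil_mul_sharp hδ hp' hq'
  have e3 := top_mul hδ hp' e2
  rw [h, e1, map_sub, pow_mul_const hδ hs₁, pow_mul_const hδ hs₂,
    pow_apply_eq_zero_of_le e2 (by omega : p + q + 1 ≤ p + (p + q)),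
    pow_apply_eq_zero_of_le hq' (by omega : q + 1 ≤ p + (p + q)), zero_mul, zero_mul, sub_zero,
    mul_smul_comm, smul_smul, ← Nat.cast_smul_eq_nsmul ℂ] at e3
  have hc1 : (p + (p + q)).choose p ≠ 0 := (Nat.choose_pos (by omega)).ne'
  have hc2 : (p + q).choose p ≠ 0 := (Nat.choose_pos (by omega)).ne'
  rcases smul_eq_zero.mp e3.symm with h1 | h1
  · exact (Nat.mul_ne_zero hc1 hc2) (Nat.cast_eq_zero.mp h1)
  · rcases hnz _ (hS p x hx) _ (S.mul_mem (hS p x hx) (hS q τ hτ)) h1 with h2 | h2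
    · exact hp h2
    · rcases hnz _ (hS p x hx) _ (hS q τ hτ) h2 with h3 | h3
      · exact hp h3
      · exact hq h3

theorem pow_mem_sub₁ (n : ℕ) (a : A) (ha : a ∈ Q.sub) : (Q.δ₁ ^ n) a ∈ Q.sub := by
  obtain ⟨⟨p, hp⟩, ⟨q, hq⟩⟩ := ha
  refine ⟨⟨p, ?_⟩, ⟨q, ?_⟩⟩
  · rw [← Module.End.mul_apply, ← pow_add, add_comm, pow_add, Module.End.mul_apply, hp, map_zero]
  · rw [← Module.End.mul_apply, ((Q.comm.pow_pow n q).symm).eq, Module.End.mul_apply, hq, map_zero]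

theorem pow_mem_sub₂ (n : ℕ) (a : A) (ha : a ∈ Q.sub) : (Q.δ₂ ^ n) a ∈ Q.sub := by
  obtain ⟨⟨p, hp⟩, ⟨q, hq⟩⟩ := ha
  refine ⟨⟨p, ?_⟩, ⟨q, ?_⟩⟩
  · rw [← Module.End.mul_apply, (Q.comm.pow_pow p n).eq, Module.End.mul_apply, hp, map_zero]
  · rw [← Module.End.mul_apply, ← pow_add, add_comm, pow_add, Module.End.mul_apply, hq, map_zero]

/-- A solution of `x² τ - x τ s₁ + τ s₂ = 0` among differential operators comes from a solution
among functions. -/
theorem quadratic {x τ s₁ s₂ : A} (hx : x ∈ Q.sub) (hτ : τ ∈ Q.sub)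
    (h11 : Q.δ₁ s₁ = 0) (h12 : Q.δ₁ s₂ = 0) (h21 : Q.δ₂ s₁ = 0) (h22 : Q.δ₂ s₂ = 0)
    (h0 : τ ≠ 0) (h : x * (x * τ) = x * τ * s₁ - τ * s₂) :
    Q.δ₁ x = 0 ∧ Q.δ₂ x = 0 ∧ ∃ c, c ≠ 0 ∧ Q.δ₁ c = 0 ∧ Q.δ₂ c = 0 ∧
      x * (x * c) = x * c * s₁ - c * s₂ := by
  have hx1 : Q.δ₁ x = 0 := const_of_quadratic Q.h₁ Q.sub Q.pow_mem_sub₁ (fun a ha => ha.1)
    (fun a ha b hb => Q.nzd_sub ha hb) hx hτ h11 h12 h0 h
  have hx2 : Q.δ₂ x = 0 := const_of_quadratic Q.h₂ Q.sub Q.pow_mem_sub₂ (fun a ha => ha.2)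
    (fun a ha b hb => Q.nzd_sub ha hb) hx hτ h21 h22 h0 h
  refine ⟨hx1, hx2, ?_⟩
  obtain ⟨p, q, h1, h2, h3, h4, h5, h6⟩ := Q.exists_lead hτ h0
  refine ⟨_, h3, h5, h6, ?_⟩
  have e1 : x * (x * (Q.δ₁ ^ p) τ) = x * (Q.δ₁ ^ p) τ * s₁ - (Q.δ₁ ^ p) τ * s₂ := by
    have := congrArg (Q.δ₁ ^ p) h
    rwa [map_sub, pow_const_mul Q.h₁ hx1, pow_const_mul Q.h₁ hx1, pow_mul_const Q.h₁ h11,
      pow_mul_const Q.h₁ h12, pow_const_mul Q.h₁ hx1] at this
  have := congrArg (Q.δ₂ ^ q) e1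
  rwa [map_sub, pow_const_mul Q.h₂ hx2, pow_const_mul Q.h₂ hx2, pow_mul_const Q.h₂ h21,
    pow_mul_const Q.h₂ h22, pow_const_mul Q.h₂ hx2] at this

end Pair

end Nil

/-! ## Functions of two points -/

/-- A ring `S` of functions of the elementary symmetric functions `s₁ = x₁ + x₂`, `s₂ = x₁ x₂`
of two points, with the derivations `∂/∂s₁`, `∂/∂s₂`. -/
structure Setup (S : Type) [CommRing S] [Algebra ℂ S] where
  s₁ : S
  s₂ : S
  d₁ : Derivation ℂ S S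
  d₂ : Derivation ℂ S S
  h11 : d₁ s₁ = 1
  h12 : d₁ s₂ = 0
  h21 : d₂ s₁ = 0
  h22 : d₂ s₂ = 1

namespace Setup

variable {S : Type} [CommRing S] [Algebra ℂ S] (Z : Setup S)

/-- The ring of functions of two ordered points, `S[x₁]`, where `x₁² = s₁x₁ - s₂`. -/
abbrev R : Type := QuadraticAlgebra S (-Z.s₂) Z.s₁

/-- The first point `x₁`. -/
def x : Z.R := ⟨0, 1⟩

/-- The second point `x₂ = s₁ - x₁`. -/
def y : Z.R := ⟨Z.s₁, -1⟩

/-- Multiplication operators. -/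
abbrev M : S →ₐ[ℂ] Module.End ℂ S := Algebra.lmul ℂ S

/-- The evaluation `f ↦ f(x₁)`. -/
def ev : ℂ[X] →ₐ[ℂ] Z.R := aeval Z.x

theorem ev_X_mul (f : ℂ[X]) : Z.ev (X * f) = Z.x * Z.ev f := by
  rw [map_mul]; simp [ev]

theorem ev_X_mul_re (f : ℂ[X]) : (Z.ev (X * f)).re = -Z.s₂ * (Z.ev f).im := by
  rw [ev_X_mul]; simp [x]

theorem ev_X_mul_im (f : ℂ[X]) : (Z.ev (X * f)).im = (Z.ev f).re + Z.s₁ * (Z.ev f).im := by
  rw [ev_X_mul]; simp [x]

/-- The components of the operator `h ↦ f(x₁) ∂h/∂x₁`, from `S` to `R = S ⊕ S x₁`. -/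
def U0 (f : ℂ[X]) : Module.End ℂ S :=
  M (Z.ev f).re * ((Z.d₁ : Module.End ℂ S) + M Z.s₁ * (Z.d₂ : Module.End ℂ S)) +
    M (Z.s₂ * (Z.ev f).im) * (Z.d₂ : Module.End ℂ S)

/-- See `U0`. -/
def U1 (f : ℂ[X]) : Module.End ℂ S :=
  M (Z.ev f).im * (Z.d₁ : Module.End ℂ S) - M (Z.ev f).re * (Z.d₂ : Module.End ℂ S)

theorem U0_apply (f : ℂ[X]) (h : S) :
    Z.U0 f h = (Z.ev f).re * (Z.d₁ h + Z.s₁ * Z.d₂ h) + Z.s₂ * (Z.ev f).im * Z.d₂ h := by
  simp [U0]

theorem U1_apply (f : ℂ[X]) (h : S) :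
    Z.U1 f h = (Z.ev f).im * Z.d₁ h - (Z.ev f).re * Z.d₂ h := by
  simp [U1]

theorem U0_X_mul (f : ℂ[X]) : Z.U0 (X * f) = - (M Z.s₂ * Z.U1 f) := by
  ext h
  simp only [U0_apply, ev_X_mul_re, ev_X_mul_im, LinearMap.neg_apply, Module.End.mul_apply,
    Algebra.coe_lmul_eq_mul, LinearMap.mul_apply', U1_apply]
  ring

theorem U1_X_mul (f : ℂ[X]) : Z.U1 (X * f) = Z.U0 f + M Z.s₁ * Z.U1 f := by
  ext h
  simp only [U0_apply, U1_apply, ev_X_mul_re, ev_X_mul_im, LinearMap.add_apply,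
    Module.End.mul_apply, Algebra.coe_lmul_eq_mul, LinearMap.mul_apply']
  ring

/-- `λ_T(f) = T ∘ f(x₁) ∂_{x₁}` for `T : R → S` given by its components `T.1 = T|_S` and
`T.2 = (T ∘ x₁)|_S`. -/
def lam (T : Module.End ℂ S × Module.End ℂ S) : ℂ[X] →ₗ[ℂ] Module.End ℂ S where
  toFun f := T.1 * Z.U0 f + T.2 * Z.U1 f
  map_add' f g := by
    simp only [U0, U1, map_add, QuadraticAlgebra.re_add, QuadraticAlgebra.im_add, mul_add, add_mul,
      mul_sub]
    abel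
  map_smul' c f := by
    simp only [U0, U1, map_smul, QuadraticAlgebra.re_smul, QuadraticAlgebra.im_smul,
      mul_smul_comm, smul_mul_assoc, RingHom.id_apply, smul_add, mul_add, mul_sub, smul_sub]

theorem lam_apply (T : Module.End ℂ S × Module.End ℂ S) (f : ℂ[X]) :
    Z.lam T f = T.1 * Z.U0 f + T.2 * Z.U1 f := rfl

/-- The operator `T ↦ T ∘ x₁ - X T`, in components. -/
def del (X' : Module.End ℂ S) (T : Module.End ℂ S × Module.End ℂ S) :
    Module.End ℂ S × Module.End ℂ S :=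
  (T.2 - X' * T.1, T.2 * M Z.s₁ - T.1 * M Z.s₂ - X' * T.2)

theorem lam_del (X' : Module.End ℂ S) (T : Module.End ℂ S × Module.End ℂ S) (f : ℂ[X]) :
    Z.lam (Z.del X' T) f = Z.lam T (X * f) - X' * Z.lam T f := by
  ext h
  simp only [lam_apply, del, U0_X_mul, U1_X_mul, LinearMap.add_apply, LinearMap.sub_apply,
    Module.End.mul_apply, LinearMap.neg_apply, map_add, map_neg]
  abel

theorem ev_one_re : (Z.ev 1).re = 1 := by rw [map_one]; rfl
theorem ev_one_im : (Z.ev 1).im = 0 := by rw [map_one]; rfl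

/-- If `λ_T = 0` then `T.1 ∘ (s₁² - 4 s₂) = 0`. -/
theorem lam_eq_zero (T : Module.End ℂ S × Module.End ℂ S) (h : ∀ f, Z.lam T f = 0) :
    T.1 * M (Z.s₁ * Z.s₁ - 4 * Z.s₂) = 0 ∧ (2 : ℂ) • T.2 = T.1 * M Z.s₁ := by
  have key : ∀ f : ℂ[X], ∀ g : S, T.1 (Z.U0 f g) + T.2 (Z.U1 f g) = 0 := by
    intro f g
    have := LinearMap.congr_fun (h f) g
    simpa [lam_apply] using this
  have r0 := Z.ev_one_re
  have i0 := Z.ev_one_im
  have r1 := Z.ev_X_mul_re 1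
  have i1 := Z.ev_X_mul_im 1
  have r2 := Z.ev_X_mul_re (X * 1)
  have i2 := Z.ev_X_mul_im (X * 1)
  have r3 := Z.ev_X_mul_re (X * (X * 1))
  have i3 := Z.ev_X_mul_im (X * (X * 1))
  simp only [r0, i0] at r1 i1
  simp only [r1, i1] at r2 i2
  simp only [r2, i2] at r3 i3
  -- the relation `T((x₂ - x₁) g) = 0`
  have e1 : ∀ g : S, T.1 (Z.s₁ * g) - T.2 ((2 : ℂ) • g) = 0 := by
    intro g
    have a1 := key 1 (Z.s₂ * g)
    have a2 := key (X * 1) (Z.s₁ * g)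
    have a3 := key (X * (X * 1)) g
    have : T.1 (Z.U0 1 (Z.s₂ * g) - Z.U0 (X * 1) (Z.s₁ * g) + Z.U0 (X * (X * 1)) g) +
        T.2 (Z.U1 1 (Z.s₂ * g) - Z.U1 (X * 1) (Z.s₁ * g) + Z.U1 (X * (X * 1)) g) = 0 := by
      simp only [map_add, map_sub]
      linear_combination a1 - a2 + a3
    have b1 : Z.U0 1 (Z.s₂ * g) - Z.U0 (X * 1) (Z.s₁ * g) + Z.U0 (X * (X * 1)) g = Z.s₁ * g := by
      simp only [U0_apply, r0, i0, r1, i1, r2, i2, Derivation.leibniz, Z.h11, Z.h12, Z.h21, Z.h22,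
        smul_eq_mul]
      ring
    have b2 : Z.U1 1 (Z.s₂ * g) - Z.U1 (X * 1) (Z.s₁ * g) + Z.U1 (X * (X * 1)) g =
        - ((2 : ℂ) • g) := by
      simp only [U1_apply, r0, i0, r1, i1, r2, i2, Derivation.leibniz, Z.h11, Z.h12, Z.h21, Z.h22,
        smul_eq_mul, two_smul]
      ring
    rw [b1, b2, map_neg, ← sub_eq_add_neg] at this
    exact this
  have e2 : ∀ g : S, T.1 ((2 : ℂ) • (Z.s₂ * g)) - T.2 (Z.s₁ * g) = 0 := by
    intro g
    have a1 := key (X * 1) (Z.s₂ * g)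
    have a2 := key (X * (X * 1)) (Z.s₁ * g)
    have a3 := key (X * (X * (X * 1))) g
    have : T.1 (Z.U0 (X * 1) (Z.s₂ * g) - Z.U0 (X * (X * 1)) (Z.s₁ * g) +
          Z.U0 (X * (X * (X * 1))) g) +
        T.2 (Z.U1 (X * 1) (Z.s₂ * g) - Z.U1 (X * (X * 1)) (Z.s₁ * g) +
          Z.U1 (X * (X * (X * 1))) g) = 0 := by
      simp only [map_add, map_sub]
      linear_combination a1 - a2 + a3
    have b1 : Z.U0 (X * 1) (Z.s₂ * g) - Z.U0 (X * (X * 1)) (Z.s₁ * g) +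
        Z.U0 (X * (X * (X * 1))) g = (2 : ℂ) • (Z.s₂ * g) := by
      simp only [U0_apply, r1, i1, r2, i2, r3, i3, Derivation.leibniz, Z.h11, Z.h12, Z.h21, Z.h22,
        smul_eq_mul, two_smul]
      ring
    have b2 : Z.U1 (X * 1) (Z.s₂ * g) - Z.U1 (X * (X * 1)) (Z.s₁ * g) +
        Z.U1 (X * (X * (X * 1))) g = - (Z.s₁ * g) := by
      simp only [U1_apply, r1, i1, r2, i2, r3, i3, Derivation.leibniz, Z.h11, Z.h12, Z.h21, Z.h22,
        smul_eq_mul]
      ring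
    rw [b1, b2, map_neg, ← sub_eq_add_neg] at this
    exact this
  constructor
  · ext g
    have c1 := e1 (Z.s₁ * g)
    have c2 := e2 g
    have : T.1 ((Z.s₁ * Z.s₁ - 4 * Z.s₂) * g) = 0 := by
      have b : (Z.s₁ * Z.s₁ - 4 * Z.s₂) * g =
          Z.s₁ * (Z.s₁ * g) - (2 : ℂ) • ((2 : ℂ) • (Z.s₂ * g)) := by
        simp only [two_smul]; ring
      rw [b, map_sub, map_smul]
      rw [map_smul] at c1
      linear_combination (norm := module) c1 - (2 : ℂ) • c2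
    rw [Module.End.mul_apply, Algebra.coe_lmul_eq_mul, LinearMap.mul_apply', this,
      LinearMap.zero_apply]
  · ext g
    have := e1 g
    rw [map_smul] at this
    simp only [LinearMap.smul_apply, Module.End.mul_apply, Algebra.coe_lmul_eq_mul,
      LinearMap.mul_apply']
    linear_combination (norm := module) -this

/-- The two facts about `S` that are used: operators commuting with `s₁` and `s₂` are
multiplications, and the quadratic polynomial `x² - s₁x + s₂` has no root in `S`. -/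
structure Good : Prop where
  comm : ∀ D : Module.End ℂ S, (∀ h, D (Z.s₁ * h) = Z.s₁ * D h) →
    (∀ h, D (Z.s₂ * h) = Z.s₂ * D h) → ∀ h, D h = D 1 * h
  root : ∀ c : S, c * c - c * Z.s₁ + Z.s₂ ≠ 0

/-- The commutator with a multiplication operator. -/
def adS (s : S) : Module.End ℂ (Module.End ℂ S) :=
  LinearMap.mulRight ℂ (M s) - LinearMap.mulLeft ℂ (M s)

theorem adS_apply (s : S) (D : Module.End ℂ S) : adS s D = D * M s - M s * D := rfl

theorem adS_mul (s : S) (D D' : Module.End ℂ S) : adS s (D * D') = adS s D * D' + D * adS s D' := by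
  simp only [adS_apply, sub_mul, mul_sub, mul_assoc]; abel

theorem M_comm (s s' : S) : M s * M s' = M s' * M s := by
  rw [← map_mul, mul_comm, map_mul]

theorem adS_comm (s s' : S) : Commute (adS s) (adS s') := by
  apply LinearMap.ext
  intro D
  simp only [Module.End.mul_apply, adS_apply]
  have h := M_comm s s'
  calc (D * M s' - M s' * D) * M s - M s * (D * M s' - M s' * D)
      = D * (M s' * M s) - M s' * D * M s - M s * D * M s' + (M s * M s') * D := by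
        simp only [sub_mul, mul_sub, mul_assoc]; abel
    _ = D * (M s * M s') - M s' * D * M s - M s * D * M s' + (M s' * M s) * D := by rw [h]
    _ = (D * M s - M s * D) * M s' - M s' * (D * M s - M s * D) := by
        simp only [sub_mul, mul_sub, mul_assoc]; abel

theorem adS_M (s s' : S) : adS s (M s') = 0 := by rw [adS_apply, M_comm, sub_self]

theorem adS_eq_zero (s : S) (D : Module.End ℂ S) (h : adS s D = 0) (g : S) :
    D (s * g) = s * D g := by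
  have := LinearMap.congr_fun h g
  simpa [adS_apply, sub_eq_zero] using this

variable {Z} in
theorem Good.eq_M (hZ : Z.Good) {D : Module.End ℂ S} (h1 : adS Z.s₁ D = 0) (h2 : adS Z.s₂ D = 0) :
    D = M (D 1) := by
  ext h
  exact hZ.comm D (adS_eq_zero _ _ h1) (adS_eq_zero _ _ h2) h

theorem M_injective {s : S} (h : M s = 0) : s = 0 := by
  have := LinearMap.congr_fun h 1
  simpa using this

variable [IsDomain S]

/-- The pair of commuting derivations `ad s₁`, `ad s₂`. -/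
def pair (hZ : Z.Good) : Pair (Module.End ℂ S) where
  δ₁ := adS Z.s₁
  δ₂ := adS Z.s₂
  h₁ := adS_mul _
  h₂ := adS_mul _
  comm := adS_comm _ _
  nzd := by
    intro a b ha1 ha2 hb1 hb2 hab
    have ha := hZ.eq_M ha1 ha2
    have hb := hZ.eq_M hb1 hb2
    rw [ha, hb, ← map_mul] at hab
    rcases mul_eq_zero.mp (M_injective hab) with h | h
    · left; rw [ha, h, map_zero]
    · right; rw [hb, h, map_zero]

theorem M_mem (hZ : Z.Good) (s : S) : M s ∈ (Z.pair hZ).sub :=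
  ⟨⟨1, by rw [pow_one]; exact adS_M _ _⟩, ⟨1, by rw [pow_one]; exact adS_M _ _⟩⟩

theorem disc_ne_zero (hZ : Z.Good) : Z.s₁ * Z.s₁ - 4 * Z.s₂ ≠ 0 := by
  intro h
  have hc : (2 : ℂ)⁻¹ • Z.s₁ + (2 : ℂ)⁻¹ • Z.s₁ = Z.s₁ := by
    rw [← add_smul]; norm_num
  set c := (2 : ℂ)⁻¹ • Z.s₁ with hcdef
  apply hZ.root c
  rw [← hc] at h ⊢
  have h4 : (4 : S) * (c * c - Z.s₂) = 0 := by linear_combination h
  have h40 : (4 : S) ≠ 0 := by
    have : CharZero S := charZero_of_injective_algebraMap (algebraMap ℂ S).injective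
    norm_num
  rcases mul_eq_zero.mp h4 with h5 | h5
  · exact absurd h5 h40
  · linear_combination -h5

theorem lam_injective (hZ : Z.Good) {T : Module.End ℂ S × Module.End ℂ S}
    (h1 : T.1 ∈ (Z.pair hZ).sub) (h : Z.lam T = 0) : T = 0 := by
  obtain ⟨e1, e2⟩ := Z.lam_eq_zero T (fun f => by rw [h]; rfl)
  have e3 : T.1 = 0 := by
    rcases (Z.pair hZ).nzd_sub h1 (Z.M_mem hZ _) e1 with h | h
    · exact h
    · exact absurd (M_injective h) (Z.disc_ne_zero hZ)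
  rw [e3, zero_mul] at e2
  have e4 : T.2 = 0 := by
    rcases smul_eq_zero.mp e2 with h | h
    · norm_num at h
    · exact h
  exact Prod.ext e3 e4

theorem del_injective (hZ : Z.Good) {X' : Module.End ℂ S} (hX : X' ∈ (Z.pair hZ).sub)
    {T : Module.End ℂ S × Module.End ℂ S} (h1 : T.1 ∈ (Z.pair hZ).sub) (h : Z.del X' T = 0) :
    T = 0 := by
  have e1 : T.2 = X' * T.1 := sub_eq_zero.mp (congrArg Prod.fst h)
  have e2 : T.2 * M Z.s₁ - T.1 * M Z.s₂ - X' * T.2 = 0 := congrArg Prod.snd h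
  by_contra hT
  have h0 : T.1 ≠ 0 := by
    intro h0
    apply hT
    refine Prod.ext h0 ?_
    rw [e1, h0, mul_zero]; rfl
  have e3 : X' * (X' * T.1) = X' * T.1 * M Z.s₁ - T.1 * M Z.s₂ := by
    rw [e1] at e2
    exact (sub_eq_zero.mp e2).symm
  obtain ⟨hx1, hx2, c, hc0, hc1, hc2, hc⟩ := (Z.pair hZ).quadratic hX h1 (adS_M _ _) (adS_M _ _)
    (adS_M _ _) (adS_M _ _) h0 e3
  have hxM := hZ.eq_M hx1 hx2
  have hcM := hZ.eq_M hc1 hc2
  rw [hxM, hcM] at hc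
  simp only [← map_mul, ← map_sub] at hc
  have hc' : X' 1 * (X' 1 * c 1) - (X' 1 * c 1 * Z.s₁ - c 1 * Z.s₂) = 0 := by
    apply M_injective
    rw [map_sub, hc, sub_self]
  have hc1' : c 1 ≠ 0 := by
    intro h
    apply hc0
    rw [hcM, h, map_zero]
  apply hZ.root (X' 1)
  have : c 1 * (X' 1 * X' 1 - X' 1 * Z.s₁ + Z.s₂) = 0 := by linear_combination hc'
  exact (mul_eq_zero.mp this).resolve_left hc1'

theorem del_mem (hZ : Z.Good) {X' : Module.End ℂ S} (hX : X' ∈ (Z.pair hZ).sub)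
    {T : Module.End ℂ S × Module.End ℂ S} (h1 : T.1 ∈ (Z.pair hZ).sub)
    (h2 : T.2 ∈ (Z.pair hZ).sub) :
    (Z.del X' T).1 ∈ (Z.pair hZ).sub ∧ (Z.del X' T).2 ∈ (Z.pair hZ).sub := by
  have hs : ∀ s, M s ∈ (Z.pair hZ).sub := Z.M_mem hZ
  refine ⟨?_, ?_⟩
  · exact sub_mem h2 (mul_mem hX h1)
  · exact sub_mem (sub_mem (mul_mem h2 (hs _)) (mul_mem h1 (hs _))) (mul_mem hX h2)

end Setup

/-! ## The shift operators -/

section Shift

variable {E : Type} [Ring E] [Algebra ℂ E]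

/-- The operator `λ ↦ (f ↦ λ(Xf) - x λ(f))`. -/
def dX (x : E) : Module.End ℂ (ℂ[X] →ₗ[ℂ] E) where
  toFun lam := lam ∘ₗ LinearMap.mulLeft ℂ (X : ℂ[X]) - LinearMap.mulLeft ℂ x ∘ₗ lam
  map_add' a b := by ext; simp [mul_add]; abel
  map_smul' c a := by ext; simp [smul_sub]

theorem dX_apply (x : E) (lam : ℂ[X] →ₗ[ℂ] E) (f : ℂ[X]) :
    dX x lam f = lam (X * f) - x * lam f := rfl

theorem dX_comm {x y : E} (h : x * y = y * x) : Commute (dX x) (dX y) := by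
  apply LinearMap.ext
  intro lam
  apply LinearMap.ext
  intro f
  simp only [Module.End.mul_apply, dX_apply, mul_sub, ← mul_assoc, h]
  abel

theorem dpow_X_mul (k : ℕ) (f : ℂ[X]) :
    dpow polyD (k + 1) (X * f) = X * dpow polyD (k + 1) f + dpow polyD k f := by
  induction k with
  | zero =>
    have h1 : ∀ g : ℂ[X], dpow polyD (0 + 1) g = polyD g := by intro g; simp [dpow]
    rw [h1, h1, dpow_zero, Derivation.leibniz]
    simp
  | succ k ih =>
    have hk : (((k + 1 : ℕ) : ℂ) + 1) ≠ 0 := Nat.cast_add_one_ne_zero _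
    apply smul_right_injective _ hk
    show (((k + 1 : ℕ) : ℂ) + 1) • dpow polyD (k + 1 + 1) (X * f) =
      (((k + 1 : ℕ) : ℂ) + 1) • (X * dpow polyD (k + 1 + 1) f + dpow polyD (k + 1) f)
    rw [← D_dpow, ih, map_add, Derivation.leibniz, D_dpow, D_dpow, smul_add, smul_eq_mul,
      mul_smul_comm]
    simp only [derivative'_apply, derivative_X, smul_eq_mul, mul_one]
    push_cast
    module

/-- The linear map `f ↦ (f^{(k)}/k!)(x) v`. -/
def tm (x v : E) (k : ℕ) : ℂ[X] →ₗ[ℂ] E where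
  toFun f := aeval x (dpow polyD k f) * v
  map_add' a b := by simp only [map_add, add_mul]
  map_smul' c a := by simp only [map_smul, smul_mul_assoc, RingHom.id_apply]

theorem tm_apply (x v : E) (k : ℕ) (f : ℂ[X]) : tm x v k f = aeval x (dpow polyD k f) * v := rfl

theorem dX_tm_zero (x v : E) : dX x (tm x v 0) = 0 := by
  ext f
  simp only [LinearMap.coe_comp, Function.comp_apply, dX_apply, tm_apply, dpow_zero, map_mul,
    aeval_X, mul_assoc, sub_self]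
  simp

theorem dX_tm_succ (x v : E) (k : ℕ) : dX x (tm x v (k + 1)) = tm x v k := by
  apply LinearMap.ext
  intro f
  simp only [dX_apply, tm_apply, dpow_X_mul, map_add, map_mul, aeval_X, add_mul, mul_assoc]
  abel

theorem dX_pow_tm (x v : E) (k : ℕ) : (dX x ^ (k + 1)) (tm x v k) = 0 := by
  induction k with
  | zero => simpa using dX_tm_zero x v
  | succ k ih => rw [pow_succ, Module.End.mul_apply, dX_tm_succ, ih]

theorem dX_pow_tm_le (x v : E) (k n : ℕ) (h : k < n) : (dX x ^ n) (tm x v k) = 0 := by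
  obtain ⟨m, rfl⟩ := Nat.exists_eq_add_of_lt h
  rw [show k + m + 1 = m + (k + 1) by ring, pow_add, Module.End.mul_apply, dX_pow_tm, map_zero]

/-- A sum of functionals supported at commuting points is killed by a product of shift
operators. -/
theorem exists_killer {ι : Type} (xs : ι → E) (hcomm : ∀ i j, xs i * xs j = xs j * xs i)
    (N : ι → ℕ) (lams : ι → (ℂ[X] →ₗ[ℂ] E)) (h : ∀ i, (dX (xs i) ^ N i) (lams i) = 0)
    (s : Finset ι) :
    ∃ Q ∈ Submonoid.closure (Set.range fun i => dX (xs i)), Q (∑ i ∈ s, lams i) = 0 := by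
  classical
  induction s using Finset.induction_on with
  | empty => exact ⟨1, Submonoid.one_mem _, by simp⟩
  | insert a s ha ih =>
    obtain ⟨Q, hQ, hQ0⟩ := ih
    have hm : dX (xs a) ^ N a ∈ Submonoid.closure (Set.range fun i => dX (xs i)) :=
      Submonoid.pow_mem _ (Submonoid.subset_closure (Set.mem_range_self a)) _
    refine ⟨dX (xs a) ^ N a * Q, Submonoid.mul_mem _ hm hQ, ?_⟩
    have hc : Commute (dX (xs a) ^ N a) Q := by
      apply Commute.pow_left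
      refine Submonoid.closure_induction (motive := fun Q _ => Commute (dX (xs a)) Q) ?_ ?_ ?_ hQ
      · rintro _ ⟨i, rfl⟩
        exact dX_comm (hcomm a i)
      · exact Commute.one_right _
      · intro x y _ _ hx hy
        exact hx.mul_right hy
    rw [Finset.sum_insert ha, map_add, hc.eq, Module.End.mul_apply, h, map_zero, zero_add,
      ← hc.eq, Module.End.mul_apply, hQ0, map_zero]

end Shift

namespace Setup

variable {S : Type} [CommRing S] [Algebra ℂ S] (Z : Setup S)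

theorem dX_lam (x' : Module.End ℂ S) (T : Module.End ℂ S × Module.End ℂ S) :
    dX x' (Z.lam T) = Z.lam (Z.del x' T) := by
  apply LinearMap.ext
  intro f
  rw [dX_apply, lam_del]

variable [IsDomain S]

theorem closure_lam (hZ : Z.Good) {ι : Type} (xs : ι → Module.End ℂ S)
    (hxs : ∀ i, xs i ∈ (Z.pair hZ).sub) (Q : Module.End ℂ (ℂ[X] →ₗ[ℂ] Module.End ℂ S))
    (hQ : Q ∈ Submonoid.closure (Set.range fun i => dX (xs i))) :
    ∀ T : Module.End ℂ S × Module.End ℂ S, T.1 ∈ (Z.pair hZ).sub → T.2 ∈ (Z.pair hZ).sub →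
      T ≠ 0 → ∃ T' : Module.End ℂ S × Module.End ℂ S, T'.1 ∈ (Z.pair hZ).sub ∧
        T'.2 ∈ (Z.pair hZ).sub ∧ T' ≠ 0 ∧ Q (Z.lam T) = Z.lam T' := by
  refine Submonoid.closure_induction (motive := fun Q _ => ∀ T : Module.End ℂ S × Module.End ℂ S,
      T.1 ∈ (Z.pair hZ).sub → T.2 ∈ (Z.pair hZ).sub →
      T ≠ 0 → ∃ T' : Module.End ℂ S × Module.End ℂ S, T'.1 ∈ (Z.pair hZ).sub ∧
        T'.2 ∈ (Z.pair hZ).sub ∧ T' ≠ 0 ∧ Q (Z.lam T) = Z.lam T') ?_ ?_ ?_ hQ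
  · rintro _ ⟨i, rfl⟩ T h1 h2 h0
    obtain ⟨m1, m2⟩ := Z.del_mem hZ (hxs i) h1 h2
    exact ⟨Z.del (xs i) T, m1, m2, fun h => h0 (Z.del_injective hZ (hxs i) h1 h), Z.dX_lam _ _⟩
  · intro T h1 h2 h0
    exact ⟨T, h1, h2, h0, rfl⟩
  · intro x y _ _ hx hy T h1 h2 h0
    obtain ⟨T', a1, a2, a3, a4⟩ := hy T h1 h2 h0
    obtain ⟨T'', b1, b2, b3, b4⟩ := hx T' a1 a2 a3
    exact ⟨T'', b1, b2, b3, by rw [Module.End.mul_apply, a4, b4]⟩

/-- **Core theorem.** The functional `λ_T`, for `T ≠ 0` a pair of differential operators, is not a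
sum of functionals supported at finitely many commuting differential operators. -/
theorem core (hZ : Z.Good) {ι : Type} [Fintype ι] (n : ι → ℕ) (xs : ι → Module.End ℂ S)
    (hxs : ∀ i, xs i ∈ (Z.pair hZ).sub) (hcomm : ∀ i j, xs i * xs j = xs j * xs i)
    (P : ι → Module.End ℂ S) (V : ι → ℕ → Module.End ℂ S)
    (T : Module.End ℂ S × Module.End ℂ S) (h1 : T.1 ∈ (Z.pair hZ).sub)
    (h2 : T.2 ∈ (Z.pair hZ).sub) (h0 : T ≠ 0)
    (h : ∀ f : ℂ[X], Z.lam T f = ∑ j, (aeval (xs j) f * P j +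
      ∑ i ∈ range (n j), aeval (xs j) (dpow polyD (i + 1) f) * V j i)) : False := by
  set lams : ι → (ℂ[X] →ₗ[ℂ] Module.End ℂ S) := fun j =>
    tm (xs j) (P j) 0 + ∑ i ∈ range (n j), tm (xs j) (V j i) (i + 1) with hlams
  have e1 : Z.lam T = ∑ j, lams j := by
    apply LinearMap.ext
    intro f
    rw [h]
    simp [hlams, tm_apply, dpow_zero, LinearMap.sum_apply]
  have e2 : ∀ j, (dX (xs j) ^ (n j + 1)) (lams j) = 0 := by
    intro j
    rw [hlams]
    simp only [map_add, map_sum]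
    rw [dX_pow_tm_le _ _ 0 _ (by omega), zero_add]
    refine sum_eq_zero fun i hi => ?_
    rw [mem_range] at hi
    exact dX_pow_tm_le _ _ _ _ (by omega)
  obtain ⟨Q, hQ, hQ0⟩ := exists_killer xs hcomm (fun j => n j + 1) lams e2 univ
  rw [← e1] at hQ0
  obtain ⟨T', a1, a2, a3, a4⟩ := Z.closure_lam hZ xs hxs Q hQ T h1 h2 h0
  rw [a4] at hQ0
  exact a3 (Z.lam_injective hZ a1 hQ0)

end Setup

end

end Pool.Agent.WittWeyl
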