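import Mathlib
import Pool.Agent.Lib.MP_8879ae_al.Core

/-!
# The action of vector fields on symmetric functions of two points
-/

open Polynomial LaurentPolynomial Finset
open scoped TensorProduct

namespace Pool.Agent.WittWeyl

noncomputable section

namespace Setup

variable {S : Type} [CommRing S] [Algebra ℂ S] (Z : Setup S)

/-- The trace `R → S`, the sum over the two points. -/
def tr (z : Z.R) : S := 2 * z.re + Z.s₁ * z.im

theorem tr_add (z w : Z.R) : Z.tr (z + w) = Z.tr z + Z.tr w := by simp [tr]; ring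

theorem tr_sub (z w : Z.R) : Z.tr (z - w) = Z.tr z - Z.tr w := by simp [tr]; ring

theorem tr_smul (c : ℂ) (z : Z.R) : Z.tr (c • z) = c • Z.tr z := by
  simp [tr, mul_smul_comm, smul_add]

/-- The derivation of `S` given by the vector field `r ∂_{x₁} + r̄ ∂_{x₂}`. -/
def vd (r : Z.R) : Derivation ℂ S S := Z.tr r • Z.d₁ + Z.tr (Z.y * r) • Z.d₂

theorem vd_s₁ (r : Z.R) : Z.vd r Z.s₁ = Z.tr r := by simp [vd, Z.h11, Z.h21]

theorem vd_s₂ (r : Z.R) : Z.vd r Z.s₂ = Z.tr (Z.y * r) := by simp [vd, Z.h12, Z.h22]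

theorem tr_y_mul (r : Z.R) : Z.tr (Z.y * r) = Z.s₁ * r.re + 2 * Z.s₂ * r.im := by
  simp [tr, y]; ring

/-- The extension of `vd r` to `R`, with `x₁ ↦ r`. -/
def Vd (r : Z.R) : Derivation ℂ Z.R Z.R :=
  Derivation.mk'
    { toFun := fun z => ⟨Z.vd r z.re + z.im * r.re, Z.vd r z.im + z.im * r.im⟩
      map_add' := by
        intro a b
        ext <;> simp <;> ring
      map_smul' := by
        intro c a
        ext <;> simp [smul_add, smul_mul_assoc] } (by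
    intro a b
    have h1 := Z.vd_s₁ r
    have h2 := Z.vd_s₂ r
    rw [tr_y_mul] at h2
    rw [tr] at h1
    ext
    · simp [Derivation.leibniz, h1, h2]; ring
    · simp [Derivation.leibniz, h1, h2]; ring)

theorem Vd_apply (r z : Z.R) :
    Z.Vd r z = ⟨Z.vd r z.re + z.im * r.re, Z.vd r z.im + z.im * r.im⟩ := rfl

theorem Vd_x (r : Z.R) : Z.Vd r Z.x = r := by
  rw [Vd_apply]; ext <;> simp [x]

theorem Vd_y (r : Z.R) : Z.Vd r Z.y = ⟨Z.tr r, 0⟩ - r := by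
  rw [Vd_apply]
  ext
  · simp [y, vd_s₁]; ring
  · simp [y]

theorem tr_Vd (r z : Z.R) : Z.tr (Z.Vd r z) = Z.vd r (Z.tr z) := by
  rw [Vd_apply, tr, tr, map_add, Derivation.leibniz, Derivation.leibniz, vd_s₁, tr]
  have : Z.vd r (2 : S) = 0 := by
    have := Derivation.map_natCast (Z.vd r) 2
    simpa using this
  rw [this]
  simp only [smul_eq_mul]
  ring

section phi

variable {A : Type} [Ring A] [Algebra ℂ A] (ι : S →ₐ[ℂ] A) (D₁ D₂ : A)

/-- The element `r∂_{x₁} + r̄∂_{x₂}` of an algebra `A` of differential operators on `S`. -/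
def phiE (r : Z.R) : A := ι (Z.tr r) * D₁ + ι (Z.tr (Z.y * r)) * D₂

theorem phiE_add (r r' : Z.R) :
    Z.phiE ι D₁ D₂ (r + r') = Z.phiE ι D₁ D₂ r + Z.phiE ι D₁ D₂ r' := by
  simp only [phiE, mul_add, tr_add, map_add, add_mul]
  abel

theorem phiE_smul (c : ℂ) (r : Z.R) : Z.phiE ι D₁ D₂ (c • r) = c • Z.phiE ι D₁ D₂ r := by
  simp only [phiE, mul_smul_comm, tr_smul, map_smul, smul_mul_assoc, smul_add]

variable {ι D₁ D₂}

theorem phiE_comm (h1 : ∀ c, D₁ * ι c = ι c * D₁ + ι (Z.d₁ c))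
    (h2 : ∀ c, D₂ * ι c = ι c * D₂ + ι (Z.d₂ c)) (h12 : D₁ * D₂ = D₂ * D₁) (r r' : Z.R) :
    Z.phiE ι D₁ D₂ r * Z.phiE ι D₁ D₂ r' - Z.phiE ι D₁ D₂ r' * Z.phiE ι D₁ D₂ r =
      ι (Z.vd r (Z.tr r') - Z.vd r' (Z.tr r)) * D₁ +
      ι (Z.vd r (Z.tr (Z.y * r')) - Z.vd r' (Z.tr (Z.y * r))) * D₂ := by
  unfold phiE vd
  generalize Z.tr r = a
  generalize Z.tr (Z.y * r) = b
  generalize Z.tr r' = c
  generalize Z.tr (Z.y * r') = e
  have hc : ∀ p q : S, ι p * ι q = ι q * ι p := fun p q => by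
    rw [← map_mul, ← map_mul, mul_comm]
  have e1 : ∀ p q : S, ∀ F : A, ι p * D₁ * (ι q * F) = ι (p * q) * (D₁ * F) + ι (p * Z.d₁ q) * F := by
    intro p q F
    rw [mul_assoc, ← mul_assoc D₁, h1, add_mul, mul_add, map_mul, map_mul]
    simp only [mul_assoc]
  have e2 : ∀ p q : S, ∀ F : A, ι p * D₂ * (ι q * F) = ι (p * q) * (D₂ * F) + ι (p * Z.d₂ q) * F := by
    intro p q F
    rw [mul_assoc, ← mul_assoc D₂, h2, add_mul, mul_add, map_mul, map_mul]
    simp only [mul_assoc]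
  simp only [add_mul, mul_add, e1, e2, Derivation.add_apply, Derivation.smul_apply, smul_eq_mul,
    map_add, map_sub, sub_mul, h12, mul_comm c a, mul_comm e b, mul_comm c b, mul_comm e a]
  abel

theorem phiE_lie {B : Type} [CommRing B] [Algebra ℂ B] (D : Derivation ℂ B B) (ev : B →ₐ[ℂ] Z.R)
    (hev : ∀ f g, Z.Vd (ev f) (ev g) = ev (D g) * ev f)
    (h1 : ∀ c, D₁ * ι c = ι c * D₁ + ι (Z.d₁ c))
    (h2 : ∀ c, D₂ * ι c = ι c * D₂ + ι (Z.d₂ c)) (h12 : D₁ * D₂ = D₂ * D₁) (f g : B) :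
    Z.phiE ι D₁ D₂ (ev (f * D g - D f * g)) =
      Z.phiE ι D₁ D₂ (ev f) * Z.phiE ι D₁ D₂ (ev g) -
        Z.phiE ι D₁ D₂ (ev g) * Z.phiE ι D₁ D₂ (ev f) := by
  rw [Z.phiE_comm h1 h2 h12]
  unfold phiE
  have a1 : Z.tr (ev (f * D g - D f * g)) = Z.vd (ev f) (Z.tr (ev g)) -
      Z.vd (ev g) (Z.tr (ev f)) := by
    rw [← tr_Vd, ← tr_Vd, hev, hev, ← tr_sub, map_sub, map_mul, map_mul, mul_comm (ev f)]
  have a2 : Z.tr (Z.y * ev (f * D g - D f * g)) = Z.vd (ev f) (Z.tr (Z.y * ev g)) -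
      Z.vd (ev g) (Z.tr (Z.y * ev f)) := by
    rw [← tr_Vd, ← tr_Vd, Derivation.leibniz, Derivation.leibniz, hev, hev, Vd_y, Vd_y, ← tr_sub,
      map_sub, map_mul, map_mul]
    simp only [smul_eq_mul]
    have key : ∀ r r' : Z.R, Z.tr (r' * (⟨Z.tr r, 0⟩ - r)) = Z.tr (r * (⟨Z.tr r', 0⟩ - r')) := by
      intro r r'
      simp [tr]
      ring
    have := key (ev f) (ev g)
    have h3 : Z.tr (Z.y * (ev (D g) * ev f) + ev g * ({ re := Z.tr (ev f), im := 0 } - ev f) -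
        (Z.y * (ev (D f) * ev g) + ev f * ({ re := Z.tr (ev g), im := 0 } - ev g))) =
        Z.tr (Z.y * (ev f * ev (D g) - ev (D f) * ev g)) := by
      have h4 : Z.y * (ev (D g) * ev f) + ev g * ({ re := Z.tr (ev f), im := 0 } - ev f) -
        (Z.y * (ev (D f) * ev g) + ev f * ({ re := Z.tr (ev g), im := 0 } - ev g)) =
        (Z.y * (ev f * ev (D g) - ev (D f) * ev g)) +
        (ev g * ({ re := Z.tr (ev f), im := 0 } - ev f) -
          ev f * ({ re := Z.tr (ev g), im := 0 } - ev g)) := by ring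
      rw [h4, tr_add, tr_sub, key, sub_self, add_zero]
    exact h3.symm
  rw [a1, a2]

end phi

end Setup

end

end Pool.Agent.WittWeyl
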