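import Mathlib
import Pool.Agent.Lib.MP_8879ae_al.Defs
import Pool.Agent.Lib.MP_8879ae_al.LieLemmas

/-!
# The homomorphisms `Ψ_𝐧`
-/

open scoped TensorProduct DirectSum
open Polynomial LaurentPolynomial Finset

namespace Pool.Agent.WittWeyl

attribute [local instance 100] LieRing.ofAssociativeRing

noncomputable section

/-! ## Relations in `𝔤_n` -/

/-- A derivation of `ℂ[t]` is `D(t) d/dt`. -/
theorem WNeg_apply (D : WNeg) (p : ℂ[X]) : D p = D X * polyD p := by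
  have h2 : D = Polynomial.mkDerivation ℂ (D X) := by
    apply Polynomial.derivation_ext
    rw [Polynomial.mkDerivation_X]
  conv_lhs => rw [h2]
  rw [Polynomial.mkDerivation_apply, smul_eq_mul, mul_comm]
  rfl

theorem eVec_lie (i j : ℕ) : ⁅eVec i, eVec j⁆ = ((j : ℂ) - i) • eVec (i + j) := by
  apply Subtype.ext
  apply Polynomial.derivation_ext
  show (Polynomial.mkDerivation ℂ (X ^ (i + 1)) : WNeg)
      ((Polynomial.mkDerivation ℂ (X ^ (j + 1)) : WNeg) X) -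
    (Polynomial.mkDerivation ℂ (X ^ (j + 1)) : WNeg)
      ((Polynomial.mkDerivation ℂ (X ^ (i + 1)) : WNeg) X) =
    ((j : ℂ) - i) • (Polynomial.mkDerivation ℂ (X ^ (i + j + 1)) : WNeg) X
  simp only [Polynomial.mkDerivation_X]
  simp only [Polynomial.mkDerivation_apply, smul_eq_mul]
  rw [derivative_X_pow, derivative_X_pow, Polynomial.smul_eq_C_mul]
  simp only [add_tsub_cancel_right, map_natCast, Polynomial.C_sub]
  push_cast
  ring

theorem gv_lie (n i j : ℕ) : ⁅gv n i, gv n j⁆ = ((j : ℂ) - i) • gv n (i + j) := by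
  show LieSubmodule.Quotient.mk (N := WGe n) ⁅eVec i, eVec j⁆ = _
  rw [eVec_lie]
  rfl

theorem gv_eq_zero (n m : ℕ) (h : n ≤ m) : gv n m = 0 := by
  have h2 : LieSubmodule.Quotient.mk (N := WGe n) (eVec m) = 0 := by
    rw [LieSubmodule.Quotient.mk_eq_zero', mem_WGe]
    show (X : ℂ[X]) ^ (n + 1) ∣ (Polynomial.mkDerivation ℂ (X ^ (m + 1)) : WNeg) X
    rw [Polynomial.mkDerivation_X]
    exact pow_dvd_pow _ (by omega)
  exact h2

/-- The Lie homomorphism from `𝔤_𝐧` to `U(𝔤_𝐧)`. -/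
def gι {l : ℕ} (n : Fin l → ℕ) : gSum n →ₗ⁅ℂ⁆ Ug n := UniversalEnvelopingAlgebra.ι ℂ

theorem gV_def {l : ℕ} (n : Fin l → ℕ) (j : Fin l) (a : ℕ) : gV n j a = gι n (gInc n j (gv (n j) a)) :=
  rfl

theorem gV_comm {l : ℕ} (n : Fin l → ℕ) (j : Fin l) (a b : ℕ) :
    gV n j a * gV n j b - gV n j b * gV n j a = ((b : ℂ) - a) • gV n j (a + b) := by
  have h := LieHom.map_lie (gι n) (gInc n j (gv (n j) a)) (gInc n j (gv (n j) b))
  rw [← LieHom.map_lie, gv_lie, map_smul, map_smul] at h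
  exact h.symm

theorem gV_comm_of_ne {l : ℕ} (n : Fin l → ℕ) (j k : Fin l) (h : j ≠ k) (a b : ℕ) :
    gV n j a * gV n k b = gV n k b * gV n j a := by
  have h1 := LieHom.map_lie (gι n) (gInc n j (gv (n j) a)) (gInc n k (gv (n k) b))
  have h2 : ⁅gInc n j (gv (n j) a), gInc n k (gv (n k) b)⁆ = 0 :=
    DirectSum.lie_of_of_ne (fun j => gLie (n j)) h _ _
  rw [h2] at h1
  have h3 : gι n 0 = 0 := LinearMap.map_zero (gι n).toLinearMap
  rw [h3] at h1
  exact sub_eq_zero.mp h1.symm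

theorem gV_eq_zero {l : ℕ} (n : Fin l → ℕ) (j : Fin l) (m : ℕ) (h : n j ≤ m) : gV n j m = 0 := by
  have h1 : gι n 0 = 0 := LinearMap.map_zero (gι n).toLinearMap
  have h2 : gInc n j 0 = 0 := LinearMap.map_zero (gInc n j).toLinearMap
  rw [gV_def, gv_eq_zero _ _ h, h2, h1]

/-! ## Relations in Weyl algebras -/

theorem Weyl.mk_rel {k : ℕ} {a b : FreeAlgebra ℂ (Fin k ⊕ Fin k)} (h : WeylRel k a b) :
    Weyl.mk k a = Weyl.mk k b := RingQuot.mkAlgHom_rel ℂ h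

theorem Weyl.t_comm {k : ℕ} (i j : Fin k) : (Weyl.t i * Weyl.t j : Weyl k) = Weyl.t j * Weyl.t i := by
  have := Weyl.mk_rel (WeylRel.tt i j)
  rwa [map_mul, map_mul] at this

theorem Weyl.d_comm {k : ℕ} (i j : Fin k) : (Weyl.d i * Weyl.d j : Weyl k) = Weyl.d j * Weyl.d i := by
  have := Weyl.mk_rel (WeylRel.dd i j)
  rwa [map_mul, map_mul] at this

theorem Weyl.d_t {k : ℕ} (i j : Fin k) :
    (Weyl.d i * Weyl.t j : Weyl k) = Weyl.t j * Weyl.d i + if i = j then 1 else 0 := by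
  have := Weyl.mk_rel (WeylRel.dt i j)
  rw [map_mul, map_add, map_mul] at this
  rw [Weyl.d, Weyl.t, this]
  split_ifs <;> simp

theorem WeylLoc.mk_rel {k : ℕ} {a b : FreeAlgebra ℂ (LocGen k)} (h : WeylLocRel k a b) :
    WeylLoc.mk k a = WeylLoc.mk k b := RingQuot.mkAlgHom_rel ℂ h

theorem WeylLoc.t_comm {k : ℕ} (i j : Fin k) :
    (WeylLoc.t i * WeylLoc.t j : WeylLoc k) = WeylLoc.t j * WeylLoc.t i := by
  have := WeylLoc.mk_rel (WeylLocRel.tt i j)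
  rwa [map_mul, map_mul] at this

theorem WeylLoc.d_comm {k : ℕ} (i j : Fin k) :
    (WeylLoc.d i * WeylLoc.d j : WeylLoc k) = WeylLoc.d j * WeylLoc.d i := by
  have := WeylLoc.mk_rel (WeylLocRel.dd i j)
  rwa [map_mul, map_mul] at this

theorem WeylLoc.d_t {k : ℕ} (i j : Fin k) :
    (WeylLoc.d i * WeylLoc.t j : WeylLoc k) =
      WeylLoc.t j * WeylLoc.d i + if i = j then 1 else 0 := by
  have := WeylLoc.mk_rel (WeylLocRel.dt i j)
  rw [map_mul, map_add, map_mul] at this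
  rw [WeylLoc.d, WeylLoc.t, this]
  split_ifs <;> simp

theorem WeylLoc.t_mul_tinv {k : ℕ} (i : Fin k) : (WeylLoc.t i * WeylLoc.tinv i : WeylLoc k) = 1 := by
  have := WeylLoc.mk_rel (WeylLocRel.mul_inv i)
  rwa [map_mul, map_one] at this

theorem WeylLoc.tinv_mul_t {k : ℕ} (i : Fin k) : (WeylLoc.tinv i * WeylLoc.t i : WeylLoc k) = 1 := by
  have := WeylLoc.mk_rel (WeylLocRel.inv_mul i)
  rwa [map_mul, map_one] at this

/-! ## Commutation of `∂` with functions -/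

section Good

variable {B : Type} [CommRing B] [Algebra ℂ B] (D : Derivation ℂ B B)
variable {A : Type} [Ring A] [Algebra ℂ A]

/-- The functions `f` with `[d, θ(f)] = θ(D f)` form a subalgebra. -/
def goodSub (θ : B →ₐ[ℂ] A) (d : A) : Subalgebra ℂ B where
  carrier := {f | d * θ f = θ f * d + θ (D f)}
  mul_mem' := by
    intro a b (ha : d * θ a = θ a * d + θ (D a)) (hb : d * θ b = θ b * d + θ (D b))
    show d * θ (a * b) = θ (a * b) * d + θ (D (a * b))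
    rw [Derivation.leibniz, map_add, smul_eq_mul, smul_eq_mul, map_mul, map_mul, map_mul,
      ← mul_assoc, ha, add_mul, mul_assoc, hb, mul_add, mul_assoc, add_assoc]
    congr 2
    rw [← map_mul, ← map_mul, mul_comm]
  add_mem' := by
    intro a b (ha : d * θ a = θ a * d + θ (D a)) (hb : d * θ b = θ b * d + θ (D b))
    show d * θ (a + b) = θ (a + b) * d + θ (D (a + b))
    rw [map_add, mul_add, ha, hb, map_add, map_add, add_mul]
    abel
  algebraMap_mem' := by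
    intro r
    show d * θ (algebraMap ℂ B r) = θ (algebraMap ℂ B r) * d + θ (D (algebraMap ℂ B r))
    rw [Derivation.map_algebraMap, map_zero, add_zero, AlgHom.commutes, Algebra.commutes]

theorem mem_goodSub (θ : B →ₐ[ℂ] A) (d : A) (f : B) :
    f ∈ goodSub D θ d ↔ d * θ f = θ f * d + θ (D f) := Iff.rfl

/-- The functions `f` with `[d, θ(f)] = 0` form a subalgebra. -/
def commSub (θ : B →ₐ[ℂ] A) (d : A) : Subalgebra ℂ B where
  carrier := {f | d * θ f = θ f * d}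
  mul_mem' := by
    intro a b (ha : d * θ a = θ a * d) (hb : d * θ b = θ b * d)
    show d * θ (a * b) = θ (a * b) * d
    rw [map_mul, ← mul_assoc, ha, mul_assoc, hb, mul_assoc]
  add_mem' := by
    intro a b (ha : d * θ a = θ a * d) (hb : d * θ b = θ b * d)
    show d * θ (a + b) = θ (a + b) * d
    rw [map_add, mul_add, ha, hb, add_mul]
  algebraMap_mem' := by
    intro r
    show d * θ (algebraMap ℂ B r) = θ (algebraMap ℂ B r) * d
    rw [AlgHom.commutes, Algebra.commutes]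

theorem mem_commSub (θ : B →ₐ[ℂ] A) (d : A) (f : B) :
    f ∈ commSub θ d ↔ d * θ f = θ f * d := Iff.rfl

end Good

theorem poly_mem_of_X_mem (S : Subalgebra ℂ ℂ[X]) (h : X ∈ S) (f : ℂ[X]) : f ∈ S := by
  have : (⊤ : Subalgebra ℂ ℂ[X]) ≤ S := by
    rw [← Polynomial.adjoin_X, Algebra.adjoin_le_iff]
    simpa using h
  exact this (Algebra.mem_top)

theorem laurent_mem_of_T_mem (S : Subalgebra ℂ ℂ[T;T⁻¹]) (h1 : T 1 ∈ S) (h2 : T (-1) ∈ S)
    (f : ℂ[T;T⁻¹]) : f ∈ S := by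
  induction f using LaurentPolynomial.induction_on' with
  | add p q hp hq => exact S.add_mem hp hq
  | C_mul_T n a =>
    refine S.mul_mem ?_ ?_
    · rw [LaurentPolynomial.C_eq_algebraMap]; exact S.algebraMap_mem a
    · obtain ⟨k, rfl | rfl⟩ := n.eq_nat_or_neg
      · have := S.pow_mem h1 k
        rwa [T_pow, mul_one] at this
      · have := S.pow_mem h2 k
        rwa [T_pow, mul_neg_one] at this

theorem laurentD_T (n : ℤ) : laurentD (T n) = (n : ℂ) • T (n - 1) := by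
  have h : euler (Int.castAddHom ℂ) (T n) = (n : ℂ) • T n := by
    have := euler_single (Int.castAddHom ℂ) n 1
    rw [T, this, AddMonoidAlgebra.smul_single]
    simp
  rw [laurentD, Derivation.smul_apply, h, smul_eq_mul, mul_smul_comm, ← T_add, neg_add_eq_sub]

/-! ## `Ψ_𝐧` for `W_{-1}` -/

/-- The substitution `f ↦ f(t_j)`, from `ℂ[t]` to `A_k`. -/
def Weyl.ev {k : ℕ} (j : Fin k) : ℂ[X] →ₐ[ℂ] Weyl k := Polynomial.aeval (Weyl.t j)

theorem Weyl.ev_X {k : ℕ} (j : Fin k) : Weyl.ev j X = Weyl.t j := by simp [Weyl.ev]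

theorem Weyl.d_ev {k : ℕ} (j : Fin k) (f : ℂ[X]) :
    Weyl.d j * Weyl.ev j f = Weyl.ev j f * Weyl.d j + Weyl.ev j (polyD f) := by
  rw [← mem_goodSub]
  refine poly_mem_of_X_mem _ ?_ f
  rw [mem_goodSub, Weyl.ev_X, Weyl.d_t, if_pos rfl]
  simp

theorem Weyl.d_ev_of_ne {k : ℕ} (i j : Fin k) (h : i ≠ j) (f : ℂ[X]) :
    Weyl.d i * Weyl.ev j f = Weyl.ev j f * Weyl.d i := by
  rw [← mem_commSub]
  refine poly_mem_of_X_mem _ ?_ f
  rw [mem_commSub, Weyl.ev_X, Weyl.d_t, if_neg h, add_zero]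

theorem Weyl.ev_comm {k : ℕ} (i j : Fin k) (f g : ℂ[X]) :
    Weyl.ev i f * Weyl.ev j g = Weyl.ev j g * Weyl.ev i f := by
  rw [← mem_commSub]
  refine poly_mem_of_X_mem _ ?_ g
  rw [mem_commSub, Weyl.ev_X, eq_comm, ← mem_commSub]
  refine poly_mem_of_X_mem _ ?_ f
  rw [mem_commSub, Weyl.ev_X, Weyl.t_comm]

/-- The target `A_ℓ ⊗ U(𝔤_𝐧)` of `Ψ_𝐧`. -/
def TargetNeg {l : ℕ} (n : Fin l → ℕ) : Type := Weyl l ⊗[ℂ] Ug n

instance {l : ℕ} (n : Fin l → ℕ) : Ring (TargetNeg n) := Algebra.TensorProduct.instRing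

instance {l : ℕ} (n : Fin l → ℕ) : Algebra ℂ (TargetNeg n) := Algebra.TensorProduct.instAlgebra

/-- The pure tensor `a ⊗ b`. -/
def TargetNeg.tmul {l : ℕ} {n : Fin l → ℕ} (a : Weyl l) (b : Ug n) : TargetNeg n := a ⊗ₜ[ℂ] b

/-- The restriction of `Ψ_𝐧` to `W_{-1}`: it sends `f∂` to
`∑_j (f(t_j)∂_j ⊗ 1 + ∑_{i < n_j} (f^{(i+1)}/(i+1)!)(t_j) ⊗ v_{j,i})`. -/
def psiNegFun {l : ℕ} (n : Fin l → ℕ) (f : ℂ[X]) : TargetNeg n :=
  ∑ j, (TargetNeg.tmul (Weyl.ev j f * Weyl.d j) 1 +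
    ∑ i ∈ range (n j), TargetNeg.tmul (Weyl.ev j (dpow polyD (i + 1) f)) (gV n j i))

theorem TargetNeg.tmul_mul {l : ℕ} {n : Fin l → ℕ} (a a' : Weyl l) (b b' : Ug n) :
    TargetNeg.tmul a b * TargetNeg.tmul a' b' = TargetNeg.tmul (a * a') (b * b') :=
  Algebra.TensorProduct.tmul_mul_tmul a a' b b'

theorem TargetNeg.add_tmul {l : ℕ} {n : Fin l → ℕ} (a a' : Weyl l) (b : Ug n) :
    TargetNeg.tmul (a + a') b = TargetNeg.tmul a b + TargetNeg.tmul a' b :=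
  TensorProduct.add_tmul a a' b

theorem TargetNeg.smul_tmul {l : ℕ} {n : Fin l → ℕ} (c : ℂ) (a : Weyl l) (b : Ug n) :
    TargetNeg.tmul (c • a) b = c • TargetNeg.tmul a b := rfl

theorem TargetNeg.tmul_smul {l : ℕ} {n : Fin l → ℕ} (c : ℂ) (a : Weyl l) (b : Ug n) :
    TargetNeg.tmul a (c • b) = c • TargetNeg.tmul a b := TensorProduct.tmul_smul c a b

theorem TargetNeg.tmul_sub {l : ℕ} {n : Fin l → ℕ} (a : Weyl l) (b b' : Ug n) :
    TargetNeg.tmul a (b - b') = TargetNeg.tmul a b - TargetNeg.tmul a b' :=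
  TensorProduct.tmul_sub a b b'

theorem TargetNeg.tmul_zero {l : ℕ} {n : Fin l → ℕ} (a : Weyl l) :
    TargetNeg.tmul a (0 : Ug n) = 0 := TensorProduct.tmul_zero _ a

/-- The inclusion of `A_ℓ` in `A_ℓ ⊗ U(𝔤_𝐧)`. -/
def TargetNeg.incl {l : ℕ} (n : Fin l → ℕ) : Weyl l →ₐ[ℂ] TargetNeg n :=
  (Algebra.TensorProduct.includeLeft : Weyl l →ₐ[ℂ] Weyl l ⊗[ℂ] Ug n)

theorem TargetNeg.incl_apply {l : ℕ} (n : Fin l → ℕ) (a : Weyl l) :
    TargetNeg.incl n a = TargetNeg.tmul a 1 := rfl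

theorem psiNegFun_eq {l : ℕ} (n : Fin l → ℕ) (f : ℂ[X]) :
    psiNegFun n f = ∑ j, psiFun polyD ((TargetNeg.incl n).comp (Weyl.ev j))
      (TargetNeg.tmul (Weyl.d j) 1) (fun i => TargetNeg.tmul 1 (gV n j i)) (n j) f := by
  refine sum_congr rfl fun j _ => ?_
  simp [psiFun, TargetNeg.incl_apply, TargetNeg.tmul_mul]

theorem psiNegFun_lie {l : ℕ} (n : Fin l → ℕ) (f g : ℂ[X]) :
    psiNegFun n (f * polyD g - polyD f * g) =
      psiNegFun n f * psiNegFun n g - psiNegFun n g * psiNegFun n f := by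
  simp only [psiNegFun_eq]
  refine sum_lie polyD _ ?_ ?_ f g
  · intro j f g
    refine psiFun_lie polyD _ _ _ _ ?_ ?_ ?_ ?_ ?_ f g
    · intro f
      simp [TargetNeg.incl_apply, TargetNeg.tmul_mul, Weyl.d_ev, TargetNeg.add_tmul]
    · intro f i
      simp [TargetNeg.incl_apply, TargetNeg.tmul_mul]
    · intro i
      simp [TargetNeg.tmul_mul]
    · intro a b
      simp only [TargetNeg.tmul_mul, mul_one]
      rw [← TargetNeg.tmul_sub, gV_comm, TargetNeg.tmul_smul]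
    · intro m hm
      simp only [gV_eq_zero n j m hm, TargetNeg.tmul_zero]
  · intro j k hjk f g
    refine psiFun_commute polyD polyD _ _ _ _ _ _ _ _ ?_ ?_ ?_ ?_ ?_ ?_ ?_ ?_ ?_ f g
    · intro f g
      simp [Commute, SemiconjBy, TargetNeg.incl_apply, TargetNeg.tmul_mul, Weyl.ev_comm j k]
    · intro f
      simp [Commute, SemiconjBy, TargetNeg.incl_apply, TargetNeg.tmul_mul,
        Weyl.d_ev_of_ne k j (Ne.symm hjk)]
    · intro f i
      simp [Commute, SemiconjBy, TargetNeg.incl_apply, TargetNeg.tmul_mul]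
    · intro f
      simp [Commute, SemiconjBy, TargetNeg.incl_apply, TargetNeg.tmul_mul,
        Weyl.d_ev_of_ne j k hjk]
    · simp [Commute, SemiconjBy, TargetNeg.tmul_mul, Weyl.d_comm j k]
    · intro i
      simp [Commute, SemiconjBy, TargetNeg.tmul_mul]
    · intro f i
      simp [Commute, SemiconjBy, TargetNeg.incl_apply, TargetNeg.tmul_mul]
    · intro i
      simp [Commute, SemiconjBy, TargetNeg.tmul_mul]
    · intro a b
      simp [Commute, SemiconjBy, TargetNeg.tmul_mul, gV_comm_of_ne n j k hjk]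

theorem psiNegFun_add {l : ℕ} (n : Fin l → ℕ) (f g : ℂ[X]) :
    psiNegFun n (f + g) = psiNegFun n f + psiNegFun n g := by
  simp only [psiNegFun, map_add, add_mul, TargetNeg.add_tmul, Finset.sum_add_distrib]
  abel

theorem psiNegFun_smul {l : ℕ} (n : Fin l → ℕ) (c : ℂ) (f : ℂ[X]) :
    psiNegFun n (c • f) = c • psiNegFun n f := by
  simp only [psiNegFun, map_smul, smul_mul_assoc, TargetNeg.smul_tmul, Finset.smul_sum,
    smul_add]

theorem psiNegFun_bracket {l : ℕ} (n : Fin l → ℕ) (D E : WNeg) :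
    psiNegFun n (⁅D, E⁆ X) =
      psiNegFun n (D X) * psiNegFun n (E X) - psiNegFun n (E X) * psiNegFun n (D X) := by
  have h : ⁅D, E⁆ X = D X * polyD (E X) - polyD (D X) * E X := by
    rw [Derivation.commutator_apply, WNeg_apply D (E X), WNeg_apply E (D X), mul_comm (E X)]
  rw [h]
  exact psiNegFun_lie n (D X) (E X)

/-- The Lie algebra homomorphism `f∂ ↦ Ψ_𝐧(f∂)` from `W_{-1}` to `A_ℓ ⊗ U(𝔤_𝐧)`. -/
def psiNegLie {l : ℕ} (n : Fin l → ℕ) : WNeg →ₗ⁅ℂ⁆ TargetNeg n where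
  toFun D := psiNegFun n (D X)
  map_add' D E := psiNegFun_add n (D X) (E X)
  map_smul' c D := psiNegFun_smul n c (D X)
  map_lie' {D E} := psiNegFun_bracket n D E

/-- The algebra homomorphism `Ψ_𝐧 : U(W_{-1}) → A_ℓ ⊗ U(𝔤_𝐧)`. -/
def PsiNeg {l : ℕ} (n : Fin l → ℕ) : UniversalEnvelopingAlgebra ℂ WNeg →ₐ[ℂ] TargetNeg n :=
  UniversalEnvelopingAlgebra.lift ℂ (psiNegLie n)

/-! ## `Ψ_𝐧` for `W` -/

/-- The unit `t_j` of `Ã_k`. -/
def WeylLoc.unit {k : ℕ} (j : Fin k) : (WeylLoc k)ˣ :=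
  ⟨WeylLoc.t j, WeylLoc.tinv j, WeylLoc.t_mul_tinv j, WeylLoc.tinv_mul_t j⟩

/-- The substitution `f ↦ f(t_j)`, from `ℂ[t,t⁻¹]` to `Ã_k`. -/
def WeylLoc.ev {k : ℕ} (j : Fin k) : ℂ[T;T⁻¹] →ₐ[ℂ] WeylLoc k :=
  AddMonoidAlgebra.lift ℂ (WeylLoc k) ℤ
    ((Units.coeHom (WeylLoc k)).comp (zpowersHom (WeylLoc k)ˣ (WeylLoc.unit j)))

theorem WeylLoc.ev_T {k : ℕ} (j : Fin k) (n : ℤ) :
    WeylLoc.ev j (T n) = ((WeylLoc.unit j ^ n : (WeylLoc k)ˣ) : WeylLoc k) := by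
  rw [WeylLoc.ev, T, AddMonoidAlgebra.lift_single, one_smul]
  simp

theorem WeylLoc.ev_T_one {k : ℕ} (j : Fin k) : WeylLoc.ev j (T 1) = WeylLoc.t j := by
  rw [WeylLoc.ev_T, zpow_one]; rfl

theorem WeylLoc.ev_T_neg_one {k : ℕ} (j : Fin k) : WeylLoc.ev j (T (-1)) = WeylLoc.tinv j := by
  rw [WeylLoc.ev_T, zpow_neg_one]; rfl

theorem WeylLoc.d_tinv {k : ℕ} (i j : Fin k) :
    (WeylLoc.d i * WeylLoc.tinv j : WeylLoc k) =
      WeylLoc.tinv j * WeylLoc.d i - if i = j then WeylLoc.tinv j * WeylLoc.tinv j else 0 := by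
  have h := WeylLoc.d_t i j
  have h2 : WeylLoc.tinv j * (WeylLoc.d i * WeylLoc.t j) * WeylLoc.tinv j =
      WeylLoc.tinv j * (WeylLoc.t j * WeylLoc.d i + if i = j then 1 else 0) * WeylLoc.tinv j := by
    rw [h]
  rw [mul_assoc, mul_assoc, WeylLoc.t_mul_tinv, mul_one, mul_add, ← mul_assoc (WeylLoc.tinv j),
    WeylLoc.tinv_mul_t, one_mul, add_mul] at h2
  rw [h2]
  split_ifs <;> simp

/-- If `x` commutes with `t_j`, it commutes with `t_j⁻¹`. -/
theorem WeylLoc.comm_tinv {k : ℕ} (j : Fin k) (x : WeylLoc k) (h : x * WeylLoc.t j = WeylLoc.t j * x) :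
    x * WeylLoc.tinv j = WeylLoc.tinv j * x := by
  have : Commute x ((WeylLoc.unit j : (WeylLoc k)ˣ) : WeylLoc k) := h
  exact this.units_inv_right

theorem WeylLoc.d_ev {k : ℕ} (j : Fin k) (f : ℂ[T;T⁻¹]) :
    WeylLoc.d j * WeylLoc.ev j f = WeylLoc.ev j f * WeylLoc.d j + WeylLoc.ev j (laurentD f) := by
  rw [← mem_goodSub]
  refine laurent_mem_of_T_mem _ ?_ ?_ f
  · rw [mem_goodSub, WeylLoc.ev_T_one, WeylLoc.d_t, if_pos rfl, laurentD_T]
    simp
  · rw [mem_goodSub, laurentD_T, WeylLoc.ev_T_neg_one, WeylLoc.d_tinv, if_pos rfl, map_smul,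
      show (-1 : ℤ) - 1 = -1 + -1 by norm_num, T_add, map_mul, WeylLoc.ev_T_neg_one]
    simp [sub_eq_add_neg]

theorem WeylLoc.d_ev_of_ne {k : ℕ} (i j : Fin k) (h : i ≠ j) (f : ℂ[T;T⁻¹]) :
    WeylLoc.d i * WeylLoc.ev j f = WeylLoc.ev j f * WeylLoc.d i := by
  have h1 : WeylLoc.d i * WeylLoc.t j = WeylLoc.t j * WeylLoc.d i := by
    rw [WeylLoc.d_t, if_neg h, add_zero]
  rw [← mem_commSub]
  refine laurent_mem_of_T_mem _ ?_ ?_ f
  · rw [mem_commSub, WeylLoc.ev_T_one, h1]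
  · rw [mem_commSub, WeylLoc.ev_T_neg_one, WeylLoc.comm_tinv _ _ h1]

theorem WeylLoc.ev_comm {k : ℕ} (i j : Fin k) (f g : ℂ[T;T⁻¹]) :
    WeylLoc.ev i f * WeylLoc.ev j g = WeylLoc.ev j g * WeylLoc.ev i f := by
  have h1 : ∀ f : ℂ[T;T⁻¹], WeylLoc.t j * WeylLoc.ev i f = WeylLoc.ev i f * WeylLoc.t j := by
    intro f
    rw [← mem_commSub]
    refine laurent_mem_of_T_mem _ ?_ ?_ f
    · rw [mem_commSub, WeylLoc.ev_T_one, WeylLoc.t_comm]
    · rw [mem_commSub, WeylLoc.ev_T_neg_one, WeylLoc.comm_tinv _ _ (WeylLoc.t_comm j i)]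
  rw [← mem_commSub]
  refine laurent_mem_of_T_mem _ ?_ ?_ g
  · rw [mem_commSub, WeylLoc.ev_T_one, h1]
  · rw [mem_commSub, WeylLoc.ev_T_neg_one, WeylLoc.comm_tinv _ _ (h1 f).symm]

/-- The Laurent polynomials on which `D` agrees with `D(t) d/dt`. -/
def eqSub (D : WFull) : Subalgebra ℂ ℂ[T;T⁻¹] where
  carrier := {p | D p = D (T 1) * laurentD p}
  mul_mem' := by
    intro a b (ha : D a = D (T 1) * laurentD a) (hb : D b = D (T 1) * laurentD b)
    show D (a * b) = D (T 1) * laurentD (a * b)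
    rw [Derivation.leibniz, Derivation.leibniz, ha, hb]
    simp only [smul_eq_mul]
    ring
  add_mem' := by
    intro a b (ha : D a = D (T 1) * laurentD a) (hb : D b = D (T 1) * laurentD b)
    show D (a + b) = D (T 1) * laurentD (a + b)
    rw [map_add, map_add, ha, hb, mul_add]
  algebraMap_mem' := by
    intro c
    show D (algebraMap ℂ _ c) = D (T 1) * laurentD (algebraMap ℂ _ c)
    rw [Derivation.map_algebraMap, Derivation.map_algebraMap, mul_zero]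

theorem mem_eqSub (D : WFull) (p : ℂ[T;T⁻¹]) :
    p ∈ eqSub D ↔ D p = D (T 1) * laurentD p := Iff.rfl

/-- A derivation of `ℂ[t,t⁻¹]` is `D(t) d/dt`. -/
theorem WFull_apply (D : WFull) (p : ℂ[T;T⁻¹]) : D p = D (T 1) * laurentD p := by
  rw [← mem_eqSub]
  refine laurent_mem_of_T_mem _ ?_ ?_ p
  · rw [mem_eqSub, laurentD_T]
    simp
  · have h : (T (-1) : ℂ[T;T⁻¹]) * T 1 = 1 := by rw [← T_add]; simp
    rw [mem_eqSub, Derivation.leibniz_of_mul_eq_one D h, laurentD_T, T_pow]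
    rw [smul_eq_mul, show (-1 : ℤ) - 1 = ((2 : ℕ) : ℤ) * -1 by norm_num]
    simp only [Int.cast_neg, Int.cast_one, neg_smul, one_smul]
    ring

/-- The target `Ã_ℓ ⊗ U(𝔤_𝐧)` of `Ψ^W_𝐧`. -/
def TargetLoc {l : ℕ} (n : Fin l → ℕ) : Type := WeylLoc l ⊗[ℂ] Ug n

instance {l : ℕ} (n : Fin l → ℕ) : Ring (TargetLoc n) := Algebra.TensorProduct.instRing

instance {l : ℕ} (n : Fin l → ℕ) : Algebra ℂ (TargetLoc n) := Algebra.TensorProduct.instAlgebra

/-- The pure tensor `a ⊗ b`. -/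
def TargetLoc.tmul {l : ℕ} {n : Fin l → ℕ} (a : WeylLoc l) (b : Ug n) : TargetLoc n := a ⊗ₜ[ℂ] b

/-- The restriction of `Ψ^W_𝐧` to `W`: it sends `f∂` to
`∑_j (f(t_j)∂_j ⊗ 1 + ∑_{i < n_j} (f^{(i+1)}/(i+1)!)(t_j) ⊗ v_{j,i})`. -/
def psiLocFun {l : ℕ} (n : Fin l → ℕ) (f : ℂ[T;T⁻¹]) : TargetLoc n :=
  ∑ j, (TargetLoc.tmul (WeylLoc.ev j f * WeylLoc.d j) 1 +
    ∑ i ∈ range (n j), TargetLoc.tmul (WeylLoc.ev j (dpow laurentD (i + 1) f)) (gV n j i))

theorem TargetLoc.tmul_mul {l : ℕ} {n : Fin l → ℕ} (a a' : WeylLoc l) (b b' : Ug n) :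
    TargetLoc.tmul a b * TargetLoc.tmul a' b' = TargetLoc.tmul (a * a') (b * b') :=
  Algebra.TensorProduct.tmul_mul_tmul a a' b b'

theorem TargetLoc.add_tmul {l : ℕ} {n : Fin l → ℕ} (a a' : WeylLoc l) (b : Ug n) :
    TargetLoc.tmul (a + a') b = TargetLoc.tmul a b + TargetLoc.tmul a' b :=
  TensorProduct.add_tmul a a' b

theorem TargetLoc.smul_tmul {l : ℕ} {n : Fin l → ℕ} (c : ℂ) (a : WeylLoc l) (b : Ug n) :
    TargetLoc.tmul (c • a) b = c • TargetLoc.tmul a b := rfl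

theorem TargetLoc.tmul_smul {l : ℕ} {n : Fin l → ℕ} (c : ℂ) (a : WeylLoc l) (b : Ug n) :
    TargetLoc.tmul a (c • b) = c • TargetLoc.tmul a b := TensorProduct.tmul_smul c a b

theorem TargetLoc.tmul_sub {l : ℕ} {n : Fin l → ℕ} (a : WeylLoc l) (b b' : Ug n) :
    TargetLoc.tmul a (b - b') = TargetLoc.tmul a b - TargetLoc.tmul a b' :=
  TensorProduct.tmul_sub a b b'

theorem TargetLoc.tmul_zero {l : ℕ} {n : Fin l → ℕ} (a : WeylLoc l) :
    TargetLoc.tmul a (0 : Ug n) = 0 := TensorProduct.tmul_zero _ a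

/-- The inclusion of `Ã_ℓ` in `Ã_ℓ ⊗ U(𝔤_𝐧)`. -/
def TargetLoc.incl {l : ℕ} (n : Fin l → ℕ) : WeylLoc l →ₐ[ℂ] TargetLoc n :=
  (Algebra.TensorProduct.includeLeft : WeylLoc l →ₐ[ℂ] WeylLoc l ⊗[ℂ] Ug n)

theorem TargetLoc.incl_apply {l : ℕ} (n : Fin l → ℕ) (a : WeylLoc l) :
    TargetLoc.incl n a = TargetLoc.tmul a 1 := rfl

theorem psiLocFun_eq {l : ℕ} (n : Fin l → ℕ) (f : ℂ[T;T⁻¹]) :
    psiLocFun n f = ∑ j, psiFun laurentD ((TargetLoc.incl n).comp (WeylLoc.ev j))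
      (TargetLoc.tmul (WeylLoc.d j) 1) (fun i => TargetLoc.tmul 1 (gV n j i)) (n j) f := by
  refine sum_congr rfl fun j _ => ?_
  simp [psiFun, TargetLoc.incl_apply, TargetLoc.tmul_mul]

theorem psiLocFun_lie {l : ℕ} (n : Fin l → ℕ) (f g : ℂ[T;T⁻¹]) :
    psiLocFun n (f * laurentD g - laurentD f * g) =
      psiLocFun n f * psiLocFun n g - psiLocFun n g * psiLocFun n f := by
  simp only [psiLocFun_eq]
  refine sum_lie laurentD _ ?_ ?_ f g
  · intro j f g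
    refine psiFun_lie laurentD _ _ _ _ ?_ ?_ ?_ ?_ ?_ f g
    · intro f
      simp [TargetLoc.incl_apply, TargetLoc.tmul_mul, WeylLoc.d_ev, TargetLoc.add_tmul]
    · intro f i
      simp [TargetLoc.incl_apply, TargetLoc.tmul_mul]
    · intro i
      simp [TargetLoc.tmul_mul]
    · intro a b
      simp only [TargetLoc.tmul_mul, mul_one]
      rw [← TargetLoc.tmul_sub, gV_comm, TargetLoc.tmul_smul]
    · intro m hm
      simp only [gV_eq_zero n j m hm, TargetLoc.tmul_zero]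
  · intro j k hjk f g
    refine psiFun_commute laurentD laurentD _ _ _ _ _ _ _ _ ?_ ?_ ?_ ?_ ?_ ?_ ?_ ?_ ?_ f g
    · intro f g
      simp [Commute, SemiconjBy, TargetLoc.incl_apply, TargetLoc.tmul_mul, WeylLoc.ev_comm j k]
    · intro f
      simp [Commute, SemiconjBy, TargetLoc.incl_apply, TargetLoc.tmul_mul,
        WeylLoc.d_ev_of_ne k j (Ne.symm hjk)]
    · intro f i
      simp [Commute, SemiconjBy, TargetLoc.incl_apply, TargetLoc.tmul_mul]
    · intro f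
      simp [Commute, SemiconjBy, TargetLoc.incl_apply, TargetLoc.tmul_mul,
        WeylLoc.d_ev_of_ne j k hjk]
    · simp [Commute, SemiconjBy, TargetLoc.tmul_mul, WeylLoc.d_comm j k]
    · intro i
      simp [Commute, SemiconjBy, TargetLoc.tmul_mul]
    · intro f i
      simp [Commute, SemiconjBy, TargetLoc.incl_apply, TargetLoc.tmul_mul]
    · intro i
      simp [Commute, SemiconjBy, TargetLoc.tmul_mul]
    · intro a b
      simp [Commute, SemiconjBy, TargetLoc.tmul_mul, gV_comm_of_ne n j k hjk]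

theorem psiLocFun_add {l : ℕ} (n : Fin l → ℕ) (f g : ℂ[T;T⁻¹]) :
    psiLocFun n (f + g) = psiLocFun n f + psiLocFun n g := by
  simp only [psiLocFun, map_add, add_mul, TargetLoc.add_tmul, Finset.sum_add_distrib]
  abel

theorem psiLocFun_smul {l : ℕ} (n : Fin l → ℕ) (c : ℂ) (f : ℂ[T;T⁻¹]) :
    psiLocFun n (c • f) = c • psiLocFun n f := by
  simp only [psiLocFun, map_smul, smul_mul_assoc, TargetLoc.smul_tmul, Finset.smul_sum,
    smul_add]

theorem psiLocFun_bracket {l : ℕ} (n : Fin l → ℕ) (D E : WFull) :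
    psiLocFun n (⁅D, E⁆ (T 1)) =
      psiLocFun n (D (T 1)) * psiLocFun n (E (T 1)) - psiLocFun n (E (T 1)) * psiLocFun n (D (T 1)) := by
  have h : ⁅D, E⁆ (T 1) = D (T 1) * laurentD (E (T 1)) - laurentD (D (T 1)) * E (T 1) := by
    rw [Derivation.commutator_apply, WFull_apply D (E (T 1)), WFull_apply E (D (T 1)),
      mul_comm (E (T 1))]
  rw [h]
  exact psiLocFun_lie n (D (T 1)) (E (T 1))

/-- The Lie algebra homomorphism `f∂ ↦ Ψ^W_𝐧(f∂)` from `W` to `Ã_ℓ ⊗ U(𝔤_𝐧)`. -/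
def psiLocLie {l : ℕ} (n : Fin l → ℕ) : WFull →ₗ⁅ℂ⁆ TargetLoc n where
  toFun D := psiLocFun n (D (T 1))
  map_add' D E := psiLocFun_add n (D (T 1)) (E (T 1))
  map_smul' c D := psiLocFun_smul n c (D (T 1))
  map_lie' {D E} := psiLocFun_bracket n D E

/-- The algebra homomorphism `Ψ^W_𝐧 : U(W) → Ã_ℓ ⊗ U(𝔤_𝐧)`. -/
def PsiLoc {l : ℕ} (n : Fin l → ℕ) : UniversalEnvelopingAlgebra ℂ WFull →ₐ[ℂ] TargetLoc n :=
  UniversalEnvelopingAlgebra.lift ℂ (psiLocLie n)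

end

end Pool.Agent.WittWeyl
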