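import Mathlib
import Pool.Agent.Lib.MP_8879ae_al.Core
import Pool.Agent.Lib.MP_8879ae_al.Phi
import Pool.Agent.Lib.MP_8879ae_al.Psi

/-!
# Non-factorisation
-/

open Polynomial LaurentPolynomial Finset
open scoped TensorProduct IsMulCommutative

namespace Pool.Agent.WittWeyl

attribute [local instance 100] LieRing.ofAssociativeRing

noncomputable section

namespace Setup

variable {S : Type} [CommRing S] [Algebra ℂ S] (Z : Setup S)

/-- The trace form, as a pair of differential operators. -/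
def T0 : Module.End ℂ S × Module.End ℂ S := (M 2, M Z.s₁)

theorem lam_T0 (f : ℂ[X]) :
    Z.lam Z.T0 f = Z.phiE M (Z.d₁ : Module.End ℂ S) (Z.d₂ : Module.End ℂ S) (Z.ev f) := by
  rw [phiE, tr_y_mul]
  ext h
  simp only [lam_apply, T0, tr, LinearMap.add_apply, Module.End.mul_apply,
    Algebra.coe_lmul_eq_mul, LinearMap.mul_apply', U0_apply, U1_apply, Derivation.coeFn_coe]
  ring

/-- The evaluation homomorphism at the first point is compatible with `Vd`. -/
theorem Vd_ev (f g : ℂ[X]) : Z.Vd (Z.ev f) (Z.ev g) = Z.ev (polyD g) * Z.ev f := by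
  rw [ev, Derivation.map_aeval]
  rw [show (aeval Z.x : ℂ[X] →ₐ[ℂ] Z.R) f = Z.ev f from rfl, Vd_x]
  simp [ev]

variable [IsDomain S]

theorem no_factor (hZ : Z.Good) {W U : Type} [Ring W] [Algebra ℂ W] [Ring U] [Algebra ℂ U]
    {l : ℕ} (n : Fin l → ℕ) (χ : W ⊗[ℂ] U →ₐ[ℂ] Module.End ℂ S)
    (evs : Fin l → ℂ[X] →ₐ[ℂ] W) (ds : Fin l → W) (Vs : Fin l → ℕ → U)
    (hcomm : ∀ i j, evs i X * evs j X = evs j X * evs i X)
    (hmem : ∀ j, χ (evs j X ⊗ₜ 1) ∈ (Z.pair hZ).sub)
    (h : ∀ f : ℂ[X], Z.phiE M (Z.d₁ : Module.End ℂ S) (Z.d₂ : Module.End ℂ S) (Z.ev f) =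
      χ (∑ j, ((evs j f * ds j) ⊗ₜ[ℂ] (1 : U) +
        ∑ i ∈ range (n j), evs j (dpow polyD (i + 1) f) ⊗ₜ[ℂ] Vs j i))) : False := by
  have hev : ∀ j, ∀ f : ℂ[X], χ (evs j f ⊗ₜ 1) = aeval (χ (evs j X ⊗ₜ[ℂ] (1 : U))) f := by
    intro j f
    have : (χ.comp (Algebra.TensorProduct.includeLeft : W →ₐ[ℂ] W ⊗[ℂ] U)).comp (evs j) =
        aeval (χ (evs j X ⊗ₜ[ℂ] (1 : U))) := by
      apply Polynomial.algHom_ext
      simp
    exact DFunLike.congr_fun this f
  refine Z.core hZ n (fun j => χ (evs j X ⊗ₜ[ℂ] (1 : U))) hmem ?_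
    (fun j => χ (ds j ⊗ₜ[ℂ] (1 : U))) (fun j i => χ ((1 : W) ⊗ₜ[ℂ] Vs j i)) Z.T0
    (Z.M_mem hZ _) (Z.M_mem hZ _) ?_ ?_
  · intro i j
    simp only [← map_mul, Algebra.TensorProduct.tmul_mul_tmul, hcomm i j]
  · intro h0
    have h1 : (M (2 : S) : Module.End ℂ S) = 0 := congrArg Prod.fst h0
    have h2 := M_injective h1
    have : CharZero S := charZero_of_injective_algebraMap (algebraMap ℂ S).injective
    norm_num at h2
  · intro f
    rw [lam_T0, h, map_sum]
    refine sum_congr rfl fun j _ => ?_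
    rw [map_add, map_sum]
    congr 1
    · rw [← hev, ← map_mul, Algebra.TensorProduct.tmul_mul_tmul, mul_one]
    · refine sum_congr rfl fun i _ => ?_
      rw [← hev, ← map_mul, Algebra.TensorProduct.tmul_mul_tmul, mul_one, one_mul]

end Setup

/-! ## The polynomial case -/

/-- The polynomial ring `ℂ[s₁, s₂]`. -/
def ZPoly : Setup (MvPolynomial (Fin 2) ℂ) where
  s₁ := MvPolynomial.X 0
  s₂ := MvPolynomial.X 1
  d₁ := MvPolynomial.pderiv 0
  d₂ := MvPolynomial.pderiv 1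
  h11 := MvPolynomial.pderiv_X_self 0
  h12 := MvPolynomial.pderiv_X_of_ne (by decide)
  h21 := MvPolynomial.pderiv_X_of_ne (by decide)
  h22 := MvPolynomial.pderiv_X_self 1

theorem ZPoly_good : ZPoly.Good where
  comm := by
    intro D h1 h2
    have key : ∀ h g : MvPolynomial (Fin 2) ℂ, D (h * g) = h * D g := by
      intro h
      induction h using MvPolynomial.induction_on with
      | C a =>
        intro g
        rw [← MvPolynomial.smul_eq_C_mul, map_smul, MvPolynomial.smul_eq_C_mul]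
      | add p q hp hq => intro g; rw [add_mul, map_add, hp, hq, add_mul]
      | mul_X p i hp =>
        intro g
        rw [mul_assoc, hp, mul_assoc]
        congr 1
        fin_cases i
        · exact h1 g
        · exact h2 g
    intro h
    have := key h 1
    rw [mul_one] at this
    rw [this, mul_comm]
  root := by
    intro c hc
    let F : MvPolynomial (Fin 2) ℂ →ₐ[ℂ] ℂ[X] := MvPolynomial.aeval ![0, X]
    have h := congrArg F hc
    have e0 : F ZPoly.s₁ = 0 := by simp [F, ZPoly]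
    have e1 : F ZPoly.s₂ = X := by simp [F, ZPoly]
    rw [map_add, map_sub, map_mul, map_mul, e0, e1, map_zero, mul_zero, sub_zero] at h
    have h2 : F c ^ 2 = - X := by linear_combination h
    have h3 := congrArg natDegree h2
    rw [natDegree_pow, natDegree_neg, natDegree_X] at h3
    omega

def tSub : Subalgebra ℂ (Weyl 2) := Algebra.adjoin ℂ (Set.range (Weyl.t (k := 2)))

instance : IsMulCommutative tSub :=
  Algebra.isMulCommutative_adjoin ℂ (s := Set.range (Weyl.t (k := 2))) (by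
    rintro _ ⟨i, rfl⟩ _ ⟨j, rfl⟩
    exact Weyl.t_comm i j)

/-- The substitution `f ↦ f(t_1, t_2)`, from `ℂ[s_1,s_2]` to `A_2`. -/
def Weyl.poly : MvPolynomial (Fin 2) ℂ →ₐ[ℂ] Weyl 2 :=
  tSub.val.comp (MvPolynomial.aeval (S₁ := tSub)
    (fun i => ⟨Weyl.t i, Algebra.subset_adjoin (Set.mem_range_self i)⟩))

theorem Weyl.poly_X (i : Fin 2) : Weyl.poly (MvPolynomial.X i) = Weyl.t i := by
  simp [Weyl.poly]

theorem mvpoly_mem (S : Subalgebra ℂ (MvPolynomial (Fin 2) ℂ)) (h : ∀ i, MvPolynomial.X i ∈ S)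
    (f : MvPolynomial (Fin 2) ℂ) : f ∈ S := by
  have : (⊤ : Subalgebra ℂ (MvPolynomial (Fin 2) ℂ)) ≤ S := by
    rw [← MvPolynomial.adjoin_range_X, Algebra.adjoin_le_iff]
    rintro _ ⟨i, rfl⟩
    exact h i
  exact this Algebra.mem_top

theorem Weyl.d_poly (i : Fin 2) (c : MvPolynomial (Fin 2) ℂ) :
    Weyl.d i * Weyl.poly c = Weyl.poly c * Weyl.d i + Weyl.poly (MvPolynomial.pderiv i c) := by
  rw [← mem_goodSub]
  refine mvpoly_mem _ (fun j => ?_) c
  rw [mem_goodSub, Weyl.poly_X, Weyl.d_t, MvPolynomial.pderiv_X]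
  congr 1
  rw [Pi.single_apply]
  split_ifs with h1 h2 h2
  · simp
  · exact absurd h1.symm h2
  · exact absurd h2.symm h1
  · simp

/-- The homomorphism `W_{-1} → A_2`, the action on symmetric functions of two points. -/
def phiNeg : WNeg →ₗ⁅ℂ⁆ Weyl 2 where
  toFun D := ZPoly.phiE Weyl.poly (Weyl.d 0) (Weyl.d 1) (ZPoly.ev (D X))
  map_add' D E := by
    show ZPoly.phiE _ _ _ (ZPoly.ev (D X + E X)) = _
    rw [map_add, Setup.phiE_add]
  map_smul' c D := by
    show ZPoly.phiE _ _ _ (ZPoly.ev (c • D X)) = _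
    rw [map_smul, Setup.phiE_smul]; rfl
  map_lie' {D E} := by
    have h : ⁅D, E⁆ X = D X * polyD (E X) - polyD (D X) * E X := by
      rw [Derivation.commutator_apply, WNeg_apply D (E X), WNeg_apply E (D X), mul_comm (E X)]
    show ZPoly.phiE _ _ _ (ZPoly.ev (⁅D, E⁆ X)) = _
    rw [h]
    exact ZPoly.phiE_lie polyD ZPoly.ev ZPoly.Vd_ev (Weyl.d_poly 0) (Weyl.d_poly 1)
      (Weyl.d_comm 0 1) (D X) (E X)

theorem phiNeg_mk (f : ℂ[X]) : phiNeg (Polynomial.mkDerivation ℂ f) =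
    ZPoly.phiE Weyl.poly (Weyl.d 0) (Weyl.d 1) (ZPoly.ev f) := by
  show ZPoly.phiE _ _ _ (ZPoly.ev ((Polynomial.mkDerivation ℂ f : WNeg) X)) = _
  rw [Polynomial.mkDerivation_X]

theorem psiNegLie_mk {l : ℕ} (n : Fin l → ℕ) (f : ℂ[X]) :
    psiNegLie n (Polynomial.mkDerivation ℂ f) = psiNegFun n f := by
  show psiNegFun n ((Polynomial.mkDerivation ℂ f : WNeg) X) = _
  rw [Polynomial.mkDerivation_X]

/-- The partial derivatives, as derivations over `ℂ`. -/
def pd (i : Fin 2) : Derivation ℂ (MvPolynomial (Fin 2) ℂ) (MvPolynomial (Fin 2) ℂ) :=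
  MvPolynomial.pderiv i

theorem pd_X (i j : Fin 2) : pd i (MvPolynomial.X j) = if i = j then 1 else 0 := by
  rw [pd, MvPolynomial.pderiv_X, Pi.single_apply]
  by_cases h : i = j
  · rw [if_pos h, if_pos h.symm]
  · rw [if_neg h, if_neg (fun h' => h h'.symm)]

theorem pd_comm (i j : Fin 2) (f : MvPolynomial (Fin 2) ℂ) : pd i (pd j f) = pd j (pd i f) := by
  have h : ⁅pd i, pd j⁆ = 0 := by
    apply MvPolynomial.derivation_ext
    intro k
    rw [Derivation.commutator_apply, pd_X, pd_X]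
    split_ifs <;> simp
  have h2 := DFunLike.congr_fun h f
  rw [Derivation.commutator_apply, Derivation.zero_apply] at h2
  exact sub_eq_zero.mp h2

/-- The partial derivatives, as operators. -/
def pdE (i : Fin 2) : Module.End ℂ (MvPolynomial (Fin 2) ℂ) := (pd i : _ →ₗ[ℂ] _)

theorem pdE_apply (i : Fin 2) (f : MvPolynomial (Fin 2) ℂ) : pdE i f = pd i f := rfl

theorem pdE_comm (i j : Fin 2) : pdE i * pdE j = pdE j * pdE i := by
  apply LinearMap.ext
  intro f
  exact pd_comm i j f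

theorem pdE_M (i j : Fin 2) : pdE i * Setup.M (MvPolynomial.X j) =
    Setup.M (MvPolynomial.X j) * pdE i + if i = j then 1 else 0 := by
  apply LinearMap.ext
  intro f
  rw [Module.End.mul_apply, LinearMap.add_apply, Module.End.mul_apply, pdE_apply,
    Algebra.coe_lmul_eq_mul, LinearMap.mul_apply', LinearMap.mul_apply', pdE_apply,
    Derivation.leibniz, pd_X]
  by_cases h : i = j
  · rw [if_pos h, if_pos h]; simp
  · rw [if_neg h, if_neg h]; simp

/-- The generators of `A_2`, acting on polynomials. -/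
def repPolyGen : Fin 2 ⊕ Fin 2 → Module.End ℂ (MvPolynomial (Fin 2) ℂ) :=
  Sum.elim (fun i => Setup.M (MvPolynomial.X i)) (fun i => pdE i)

theorem repPolyGen_rel (x y : FreeAlgebra ℂ (Fin 2 ⊕ Fin 2)) (h : WeylRel 2 x y) :
    FreeAlgebra.lift ℂ repPolyGen x = FreeAlgebra.lift ℂ repPolyGen y := by
  cases h with
  | tt i j =>
    rw [map_mul, map_mul, FreeAlgebra.lift_ι_apply, FreeAlgebra.lift_ι_apply]
    exact Setup.M_comm _ _
  | dd i j =>
    rw [map_mul, map_mul, FreeAlgebra.lift_ι_apply, FreeAlgebra.lift_ι_apply]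
    exact pdE_comm i j
  | dt i j =>
    rw [map_add, map_mul, map_mul, FreeAlgebra.lift_ι_apply, FreeAlgebra.lift_ι_apply]
    refine (pdE_M i j).trans ?_
    by_cases h : i = j
    · rw [if_pos h, if_pos h, map_one]; rfl
    · rw [if_neg h, if_neg h, map_zero]; rfl

/-- The action of `A_2` on polynomials. -/
def repPoly : Weyl 2 →ₐ[ℂ] Module.End ℂ (MvPolynomial (Fin 2) ℂ) :=
  RingQuot.liftAlgHom ℂ ⟨FreeAlgebra.lift ℂ repPolyGen, repPolyGen_rel⟩

theorem repPoly_mk (a : FreeAlgebra ℂ (Fin 2 ⊕ Fin 2)) :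
    repPoly (Weyl.mk 2 a) = FreeAlgebra.lift ℂ repPolyGen a :=
  RingQuot.liftAlgHom_mkAlgHom_apply ℂ _ _ a

theorem repPoly_t (i : Fin 2) : repPoly (Weyl.t i) = Setup.M (MvPolynomial.X i) := by
  rw [Weyl.t, repPoly_mk, FreeAlgebra.lift_ι_apply]; rfl

theorem repPoly_d (i : Fin 2) : repPoly (Weyl.d i) = pdE i := by
  rw [Weyl.d, repPoly_mk, FreeAlgebra.lift_ι_apply]; rfl

theorem repPoly_poly (c : MvPolynomial (Fin 2) ℂ) : repPoly (Weyl.poly c) = Setup.M c := by
  have : repPoly.comp Weyl.poly = Setup.M := by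
    apply MvPolynomial.algHom_ext
    intro i
    rw [AlgHom.comp_apply, Weyl.poly_X, repPoly_t]
  exact DFunLike.congr_fun this c

theorem repPoly_phiE (r : ZPoly.R) :
    repPoly (ZPoly.phiE Weyl.poly (Weyl.d 0) (Weyl.d 1) r) =
      ZPoly.phiE Setup.M (ZPoly.d₁ : Module.End ℂ _) (ZPoly.d₂ : Module.End ℂ _) r := by
  simp only [Setup.phiE, map_add, map_mul, repPoly_poly, repPoly_d]
  rfl

/-- A derivation `d` with `d(s)` constant is in the subalgebra. -/
theorem der_mem {S : Type} [CommRing S] [Algebra ℂ S] [IsDomain S] (Z : Setup S) (hZ : Z.Good)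
    (d : Derivation ℂ S S) : (d : Module.End ℂ S) ∈ (Z.pair hZ).sub := by
  have key : ∀ s : S, Setup.adS s (d : Module.End ℂ S) = Setup.M (d s) := by
    intro s
    apply LinearMap.ext
    intro h
    simp [Setup.adS_apply, mul_comm]
  have key2 : ∀ s : S, (Setup.adS s ^ 2) (d : Module.End ℂ S) = 0 := by
    intro s
    rw [pow_two, Module.End.mul_apply, key, Setup.adS_M]
  exact ⟨⟨2, key2 _⟩, ⟨2, key2 _⟩⟩

theorem repPoly_mem (a : Weyl 2) : repPoly a ∈ (ZPoly.pair ZPoly_good).sub := by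
  obtain ⟨b, rfl⟩ : ∃ b, Weyl.mk 2 b = a := RingQuot.mkAlgHom_surjective ℂ _ a
  rw [repPoly_mk]
  induction b with
  | grade0 r => rw [AlgHom.commutes]; exact Subalgebra.algebraMap_mem _ r
  | grade1 x =>
    rw [FreeAlgebra.lift_ι_apply]
    rcases x with i | i
    · exact ZPoly.M_mem ZPoly_good _
    · exact der_mem ZPoly ZPoly_good _
  | mul a b ha hb => rw [map_mul]; exact mul_mem ha hb
  | add a b ha hb => rw [map_add]; exact add_mem ha hb

end

end Pool.Agent.WittWeyl
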