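import Mathlib
import Pool.Agent.Lib.MP_8879ae_al.Final

/-!
# Non-factorisation: the Laurent case
-/

open Polynomial LaurentPolynomial Finset
open scoped TensorProduct IsMulCommutative

namespace Pool.Agent.WittWeyl

attribute [local instance 100] LieRing.ofAssociativeRing

noncomputable section

/-- The ring `ℂ[s₁^{±1}, s₂^{±1}]`. -/
abbrev SL : Type := AddMonoidAlgebra ℂ (ℤ × ℤ)

/-- The monomial `s₁^a s₂^b`. -/
def mon (a b : ℤ) : SL := AddMonoidAlgebra.single (a, b) 1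

theorem mon_mul (a b a' b' : ℤ) : mon a b * mon a' b' = mon (a + a') (b + b') := by
  simp [mon, AddMonoidAlgebra.single_mul_single]

theorem mon_zero : mon 0 0 = 1 := rfl

/-- `∂/∂s₁`. -/
def dL₁ : Derivation ℂ SL SL :=
  mon (-1) 0 • euler ((Int.castAddHom ℂ).comp (AddMonoidHom.fst ℤ ℤ))

/-- `∂/∂s₂`. -/
def dL₂ : Derivation ℂ SL SL :=
  mon 0 (-1) • euler ((Int.castAddHom ℂ).comp (AddMonoidHom.snd ℤ ℤ))

theorem dL₁_mon (a b : ℤ) : dL₁ (mon a b) = (a : ℂ) • mon (a - 1) b := by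
  have h := euler_single ((Int.castAddHom ℂ).comp (AddMonoidHom.fst ℤ ℤ)) (a, b) 1
  have h2 : euler ((Int.castAddHom ℂ).comp (AddMonoidHom.fst ℤ ℤ)) (mon a b) = (a : ℂ) • mon a b := by
    rw [mon, h, AddMonoidAlgebra.smul_single]
    simp
  rw [dL₁, Derivation.smul_apply, h2, smul_eq_mul, mul_smul_comm, mon_mul]
  congr 2
  · ring
  · ring

theorem dL₂_mon (a b : ℤ) : dL₂ (mon a b) = (b : ℂ) • mon a (b - 1) := by
  have h := euler_single ((Int.castAddHom ℂ).comp (AddMonoidHom.snd ℤ ℤ)) (a, b) 1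
  have h2 : euler ((Int.castAddHom ℂ).comp (AddMonoidHom.snd ℤ ℤ)) (mon a b) = (b : ℂ) • mon a b := by
    rw [mon, h, AddMonoidAlgebra.smul_single]
    simp
  rw [dL₂, Derivation.smul_apply, h2, smul_eq_mul, mul_smul_comm, mon_mul]
  congr 2
  · ring
  · ring

/-- The Laurent polynomial ring `ℂ[s₁^{±1}, s₂^{±1}]`. -/
def ZLau : Setup SL where
  s₁ := mon 1 0
  s₂ := mon 0 1
  d₁ := dL₁
  d₂ := dL₂
  h11 := by rw [dL₁_mon]; simp [mon_zero]
  h12 := by rw [dL₁_mon]; simp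
  h21 := by rw [dL₂_mon]; simp
  h22 := by rw [dL₂_mon]; simp [mon_zero]

theorem SL_induction {P : SL → Prop} (f : SL) (h0 : ∀ a b, P (mon a b))
    (hadd : ∀ f g, P f → P g → P (f + g)) (hsmul : ∀ (c : ℂ) f, P f → P (c • f)) : P f := by
  induction f using AddMonoidAlgebra.induction_linear with
  | zero => simpa using hsmul 0 _ (h0 0 0)
  | add f g hf hg => exact hadd f g hf hg
  | single m r =>
    have := hsmul r _ (h0 m.1 m.2)
    rw [mon, AddMonoidAlgebra.smul_single, smul_eq_mul, mul_one] at this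
    exact this

theorem ZLau_good : ZLau.Good where
  comm := by
    intro D h1 h2
    have k1 : ∀ g, D (mon 1 0 * g) = mon 1 0 * D g := h1
    have k2 : ∀ g, D (mon 0 1 * g) = mon 0 1 * D g := h2
    have k1' : ∀ g, D (mon (-1) 0 * g) = mon (-1) 0 * D g := by
      intro g
      have := k1 (mon (-1) 0 * g)
      rw [← mul_assoc, mon_mul] at this
      simp only [add_neg_cancel, add_zero, mon_zero, one_mul] at this
      rw [this, ← mul_assoc, mon_mul]
      simp [mon_zero]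
    have k2' : ∀ g, D (mon 0 (-1) * g) = mon 0 (-1) * D g := by
      intro g
      have := k2 (mon 0 (-1) * g)
      rw [← mul_assoc, mon_mul] at this
      simp only [add_neg_cancel, add_zero, mon_zero, one_mul] at this
      rw [this, ← mul_assoc, mon_mul]
      simp [mon_zero]
    have ka : ∀ (a : ℤ) g, D (mon a 0 * g) = mon a 0 * D g := by
      intro a
      induction a using Int.induction_on with
      | zero => intro g; rw [mon_zero, one_mul, one_mul]
      | succ n ih =>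
        intro g
        have : mon ((n : ℤ) + 1) 0 = mon n 0 * mon 1 0 := by rw [mon_mul]; simp
        rw [this, mul_assoc, ih, k1, mul_assoc]
      | pred n ih =>
        intro g
        have : mon (-(n : ℤ) - 1) 0 = mon (-n) 0 * mon (-1) 0 := by rw [mon_mul]; simp; rfl
        rw [this, mul_assoc, ih, k1', mul_assoc]
    have kb : ∀ (b : ℤ) g, D (mon 0 b * g) = mon 0 b * D g := by
      intro a
      induction a using Int.induction_on with
      | zero => intro g; rw [mon_zero, one_mul, one_mul]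
      | succ n ih =>
        intro g
        have : mon 0 ((n : ℤ) + 1) = mon 0 n * mon 0 1 := by rw [mon_mul]; simp
        rw [this, mul_assoc, ih, k2, mul_assoc]
      | pred n ih =>
        intro g
        have : mon 0 (-(n : ℤ) - 1) = mon 0 (-n) * mon 0 (-1) := by rw [mon_mul]; simp; rfl
        rw [this, mul_assoc, ih, k2', mul_assoc]
    intro h
    refine SL_induction (P := fun h => D h = D 1 * h) h ?_ ?_ ?_
    · intro a b
      have h3 : mon a b = mon a 0 * (mon 0 b * 1) := by rw [mul_one, mon_mul]; simp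
      show D (mon a b) = D 1 * mon a b
      rw [h3, ka, kb]
      ring
    · intro f g hf hg
      rw [map_add, hf, hg, mul_add]
    · intro c f hf
      rw [map_smul, hf, mul_smul_comm]
  root := by
    intro c hc
    let F : SL →ₐ[ℂ] ℂ[T;T⁻¹] := AddMonoidAlgebra.mapDomainAlgHom ℂ ℂ (AddMonoidHom.snd ℤ ℤ)
    have h := congrArg F hc
    have e0 : F ZLau.s₁ = 1 := by
      show F (mon 1 0) = 1
      simp [F, mon]
    have e1 : F ZLau.s₂ = T 1 := by
      show F (mon 0 1) = T 1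
      simp only [F, mon, AddMonoidAlgebra.mapDomainAlgHom_apply, AddMonoidAlgebra.mapDomain_single]
      rfl
    rw [map_add, map_sub, map_mul, map_mul, e0, e1, map_zero, mul_one] at h
    obtain ⟨n, f', hf'⟩ := LaurentPolynomial.exists_T_pow (2 * F c - 1)
    have h2 : (2 * F c - 1) * (2 * F c - 1) = 1 - 4 * T 1 := by linear_combination 4 * h
    have h3 : toLaurent (f' ^ 2) = toLaurent (X ^ (2 * n) - 4 * X ^ (2 * n + 1)) := by
      rw [map_pow, hf', map_sub, map_mul, toLaurent_X_pow, toLaurent_X_pow]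
      have h4 : (toLaurent (4 : ℂ[X]) : ℂ[T;T⁻¹]) = 4 := map_ofNat _ 4
      rw [h4]
      have h5 : (T ((2 * n : ℕ) : ℤ) : ℂ[T;T⁻¹]) = T n * T n := by
        rw [← T_add]; congr 1; push_cast; ring
      have h6 : (T ((2 * n + 1 : ℕ) : ℤ) : ℂ[T;T⁻¹]) = T n * T n * T 1 := by
        rw [← T_add, ← T_add]; congr 1; push_cast; ring
      rw [h5, h6]
      linear_combination (T n * T n) * h2
    have h4 := Polynomial.toLaurent_injective h3
    have h5 := congrArg natDegree h4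
    have h6 : natDegree (X ^ (2 * n) - 4 * X ^ (2 * n + 1) : ℂ[X]) = 2 * n + 1 := by
      rw [natDegree_sub_eq_right_of_natDegree_lt]
      · have : (4 : ℂ[X]) = Polynomial.C 4 := rfl
        rw [this, natDegree_C_mul_X_pow _ _ (by norm_num)]
      · have : (4 : ℂ[X]) = Polynomial.C 4 := rfl
        rw [this, natDegree_C_mul_X_pow _ _ (by norm_num), natDegree_X_pow]
        omega
    rw [h6, natDegree_pow] at h5
    omega

/-! ## The evaluation homomorphism on Laurent polynomials -/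

/-- The first point, as a unit. -/
def xUnit : (ZLau.R)ˣ where
  val := ZLau.x
  inv := (⟨mon 0 (-1), 0⟩ : ZLau.R) * ZLau.y
  val_inv := by
    have h : mon 0 1 * mon 0 (-1) = 1 := by rw [mon_mul]; simp [mon_zero]
    have h1 : ZLau.s₂ = mon 0 1 := rfl
    apply QuadraticAlgebra.ext
    · simp [Setup.x, Setup.y, h1, h, QuadraticAlgebra.re_one]
    · simp [Setup.x, Setup.y, QuadraticAlgebra.im_one]
      ring
  inv_val := by
    have h : mon 0 1 * mon 0 (-1) = 1 := by rw [mon_mul]; simp [mon_zero]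
    have h1 : ZLau.s₂ = mon 0 1 := rfl
    apply QuadraticAlgebra.ext
    · simp [Setup.x, Setup.y, h1, h, QuadraticAlgebra.re_one]
    · simp [Setup.x, Setup.y, QuadraticAlgebra.im_one]
      ring

/-- The substitution `f ↦ f(x₁)`, for Laurent polynomials. -/
def evL : ℂ[T;T⁻¹] →ₐ[ℂ] ZLau.R :=
  AddMonoidAlgebra.lift ℂ ZLau.R ℤ
    ((Units.coeHom ZLau.R).comp (zpowersHom (ZLau.R)ˣ xUnit))

theorem evL_T (n : ℤ) : evL (T n) = ((xUnit ^ n : (ZLau.R)ˣ) : ZLau.R) := by
  rw [evL, T, AddMonoidAlgebra.lift_single, one_smul]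
  simp

theorem evL_toLaurent (f : ℂ[X]) : evL (toLaurent f) = ZLau.ev f := by
  have : evL.comp toLaurentAlg = ZLau.ev := by
    apply Polynomial.algHom_ext
    rw [AlgHom.comp_apply, toLaurentAlg_apply, toLaurent_X, evL_T, zpow_one, Setup.ev, aeval_X]
    rfl
  exact DFunLike.congr_fun this f

/-- The Laurent polynomials `g` for which the chain rule holds. -/
def chainSub (r : ZLau.R) : Subalgebra ℂ ℂ[T;T⁻¹] where
  carrier := {g | ZLau.Vd r (evL g) = evL (laurentD g) * r}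
  mul_mem' := by
    intro a b (ha : ZLau.Vd r (evL a) = evL (laurentD a) * r)
      (hb : ZLau.Vd r (evL b) = evL (laurentD b) * r)
    show ZLau.Vd r (evL (a * b)) = evL (laurentD (a * b)) * r
    rw [map_mul, Derivation.leibniz, Derivation.leibniz, ha, hb, map_add]
    simp only [smul_eq_mul, map_mul]
    ring
  add_mem' := by
    intro a b (ha : ZLau.Vd r (evL a) = evL (laurentD a) * r)
      (hb : ZLau.Vd r (evL b) = evL (laurentD b) * r)
    show ZLau.Vd r (evL (a + b)) = evL (laurentD (a + b)) * r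
    rw [map_add, map_add, map_add, ha, hb, map_add, add_mul]
  algebraMap_mem' := by
    intro c
    show ZLau.Vd r (evL (algebraMap ℂ _ c)) = evL (laurentD (algebraMap ℂ _ c)) * r
    rw [AlgHom.commutes, Derivation.map_algebraMap, Derivation.map_algebraMap, map_zero, zero_mul]

theorem mem_chainSub (r : ZLau.R) (g : ℂ[T;T⁻¹]) :
    g ∈ chainSub r ↔ ZLau.Vd r (evL g) = evL (laurentD g) * r := Iff.rfl

theorem Vd_evL' (r : ZLau.R) (g : ℂ[T;T⁻¹]) : ZLau.Vd r (evL g) = evL (laurentD g) * r := by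
  rw [← mem_chainSub]
  have hx : ((xUnit : (ZLau.R)ˣ) : ZLau.R) = ZLau.x := rfl
  refine laurent_mem_of_T_mem _ ?_ ?_ g
  · rw [mem_chainSub, laurentD_T, evL_T, zpow_one, hx, Setup.Vd_x]
    simp
  · have h := Derivation.leibniz_of_mul_eq_one (ZLau.Vd r) (xUnit.inv_mul)
    rw [mem_chainSub, laurentD_T, map_smul, evL_T, evL_T, zpow_neg_one, h, hx, Setup.Vd_x,
      show (-1 : ℤ) - 1 = -1 + -1 by norm_num, zpow_add, zpow_neg_one]
    simp [pow_two]

theorem Vd_evL (f g : ℂ[T;T⁻¹]) : ZLau.Vd (evL f) (evL g) = evL (laurentD g) * evL f :=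
  Vd_evL' _ g

/-! ## The homomorphism `W → Ã_2` -/

/-- The monomials in `t_1`, `t_2` in `Ã_2`. -/
def monHom : Multiplicative (ℤ × ℤ) →* WeylLoc 2 where
  toFun m := ((WeylLoc.unit 0 ^ (m.toAdd.1) * WeylLoc.unit 1 ^ (m.toAdd.2) : (WeylLoc 2)ˣ) :
    WeylLoc 2)
  map_one' := by simp
  map_mul' a b := by
    have h : Commute (WeylLoc.unit 0 : (WeylLoc 2)ˣ) (WeylLoc.unit 1) := by
      apply Units.ext
      exact WeylLoc.t_comm 0 1
    rw [← Units.val_mul]
    congr 1
    rw [toAdd_mul, Prod.fst_add, Prod.snd_add, zpow_add, zpow_add]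
    have h2 := (h.zpow_zpow (b.toAdd.1) (a.toAdd.2)).eq
    calc WeylLoc.unit 0 ^ (a.toAdd.1) * WeylLoc.unit 0 ^ (b.toAdd.1) *
          (WeylLoc.unit 1 ^ (a.toAdd.2) * WeylLoc.unit 1 ^ (b.toAdd.2))
        = WeylLoc.unit 0 ^ (a.toAdd.1) * (WeylLoc.unit 0 ^ (b.toAdd.1) *
          WeylLoc.unit 1 ^ (a.toAdd.2)) * WeylLoc.unit 1 ^ (b.toAdd.2) := by group
      _ = WeylLoc.unit 0 ^ (a.toAdd.1) * (WeylLoc.unit 1 ^ (a.toAdd.2) *
          WeylLoc.unit 0 ^ (b.toAdd.1)) * WeylLoc.unit 1 ^ (b.toAdd.2) := by rw [h2]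
      _ = WeylLoc.unit 0 ^ (a.toAdd.1) * WeylLoc.unit 1 ^ (a.toAdd.2) *
          (WeylLoc.unit 0 ^ (b.toAdd.1) * WeylLoc.unit 1 ^ (b.toAdd.2)) := by group

/-- The substitution `f ↦ f(t_1, t_2)`, from `ℂ[s_1^{±1},s_2^{±1}]` to `Ã_2`. -/
def WeylLoc.lau : SL →ₐ[ℂ] WeylLoc 2 := AddMonoidAlgebra.lift ℂ (WeylLoc 2) (ℤ × ℤ) monHom

theorem WeylLoc.lau_mon (a b : ℤ) : WeylLoc.lau (mon a b) =
    ((WeylLoc.unit 0 ^ a * WeylLoc.unit 1 ^ b : (WeylLoc 2)ˣ) : WeylLoc 2) := by
  rw [WeylLoc.lau, mon, AddMonoidAlgebra.lift_single, one_smul]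
  rfl

theorem WeylLoc.lau_10 : WeylLoc.lau (mon 1 0) = WeylLoc.t 0 := by
  rw [WeylLoc.lau_mon, zpow_one, zpow_zero, mul_one]; rfl

theorem WeylLoc.lau_01 : WeylLoc.lau (mon 0 1) = WeylLoc.t 1 := by
  rw [WeylLoc.lau_mon, zpow_one, zpow_zero, one_mul]; rfl

theorem WeylLoc.lau_10' : WeylLoc.lau (mon (-1) 0) = WeylLoc.tinv 0 := by
  rw [WeylLoc.lau_mon, zpow_neg_one, zpow_zero, mul_one]; rfl

theorem WeylLoc.lau_01' : WeylLoc.lau (mon 0 (-1)) = WeylLoc.tinv 1 := by
  rw [WeylLoc.lau_mon, zpow_neg_one, zpow_zero, one_mul]; rfl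

theorem SL_mem (S : Subalgebra ℂ SL) (h1 : mon 1 0 ∈ S) (h2 : mon 0 1 ∈ S)
    (h3 : mon (-1) 0 ∈ S) (h4 : mon 0 (-1) ∈ S) (f : SL) : f ∈ S := by
  have pw : ∀ (a b : ℤ) (k : ℕ), mon a b ^ k = mon (k * a) (k * b) := by
    intro a b k
    simp [mon, AddMonoidAlgebra.single_pow]
  have ka : ∀ a : ℤ, mon a 0 ∈ S := by
    intro a
    obtain ⟨k, rfl | rfl⟩ := a.eq_nat_or_neg
    · have := S.pow_mem h1 k
      rwa [pw, mul_one, mul_zero] at this
    · have := S.pow_mem h3 k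
      rwa [pw, mul_neg_one, mul_zero] at this
  have kb : ∀ a : ℤ, mon 0 a ∈ S := by
    intro a
    obtain ⟨k, rfl | rfl⟩ := a.eq_nat_or_neg
    · have := S.pow_mem h2 k
      rwa [pw, mul_one, mul_zero] at this
    · have := S.pow_mem h4 k
      rwa [pw, mul_neg_one, mul_zero] at this
  refine SL_induction (P := fun f => f ∈ S) f ?_ ?_ ?_
  · intro a b
    have h3 : mon a b = mon a 0 * mon 0 b := by rw [mon_mul]; simp
    show mon a b ∈ S
    rw [h3]
    exact S.mul_mem (ka a) (kb b)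
  · intro f g hf hg
    exact S.add_mem hf hg
  · intro c f hf
    exact S.smul_mem hf c

theorem WeylLoc.d0_lau (c : SL) :
    WeylLoc.d 0 * WeylLoc.lau c = WeylLoc.lau c * WeylLoc.d 0 + WeylLoc.lau (ZLau.d₁ c) := by
  rw [← mem_goodSub]
  have hd : ZLau.d₁ = dL₁ := rfl
  refine SL_mem _ ?_ ?_ ?_ ?_ c
  · rw [mem_goodSub, WeylLoc.lau_10, WeylLoc.d_t, if_pos rfl, hd, dL₁_mon]
    simp [mon_zero]
  · rw [mem_goodSub, WeylLoc.lau_01, WeylLoc.d_t, if_neg (by decide), hd, dL₁_mon]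
    simp
  · rw [mem_goodSub, WeylLoc.lau_10', WeylLoc.d_tinv, if_pos rfl, hd, dL₁_mon]
    have h2 : mon (-1 - 1) 0 = mon (-1) 0 * mon (-1) 0 := by rw [mon_mul]; simp
    rw [h2, map_smul, map_mul, WeylLoc.lau_10']
    simp [sub_eq_add_neg]
  · rw [mem_goodSub, WeylLoc.lau_01', WeylLoc.d_tinv, if_neg (by decide), hd, dL₁_mon]
    simp

theorem WeylLoc.d1_lau (c : SL) :
    WeylLoc.d 1 * WeylLoc.lau c = WeylLoc.lau c * WeylLoc.d 1 + WeylLoc.lau (ZLau.d₂ c) := by
  rw [← mem_goodSub]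
  have hd : ZLau.d₂ = dL₂ := rfl
  refine SL_mem _ ?_ ?_ ?_ ?_ c
  · rw [mem_goodSub, WeylLoc.lau_10, WeylLoc.d_t, if_neg (by decide), hd, dL₂_mon]
    simp
  · rw [mem_goodSub, WeylLoc.lau_01, WeylLoc.d_t, if_pos rfl, hd, dL₂_mon]
    simp [mon_zero]
  · rw [mem_goodSub, WeylLoc.lau_10', WeylLoc.d_tinv, if_neg (by decide), hd, dL₂_mon]
    simp
  · rw [mem_goodSub, WeylLoc.lau_01', WeylLoc.d_tinv, if_pos rfl, hd, dL₂_mon]
    have h2 : mon 0 (-1 - 1) = mon 0 (-1) * mon 0 (-1) := by rw [mon_mul]; simp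
    rw [h2, map_smul, map_mul, WeylLoc.lau_01']
    simp [sub_eq_add_neg]

/-- The homomorphism `W → Ã_2`, the action on symmetric functions of two points. -/
def phiLoc : WFull →ₗ⁅ℂ⁆ WeylLoc 2 where
  toFun D := ZLau.phiE WeylLoc.lau (WeylLoc.d 0) (WeylLoc.d 1) (evL (D (T 1)))
  map_add' D E := by
    show ZLau.phiE _ _ _ (evL (D (T 1) + E (T 1))) = _
    rw [map_add, Setup.phiE_add]
  map_smul' c D := by
    show ZLau.phiE _ _ _ (evL (c • D (T 1))) = _
    rw [map_smul, Setup.phiE_smul]; rfl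
  map_lie' {D E} := by
    have h : ⁅D, E⁆ (T 1) = D (T 1) * laurentD (E (T 1)) - laurentD (D (T 1)) * E (T 1) := by
      rw [Derivation.commutator_apply, WFull_apply D (E (T 1)), WFull_apply E (D (T 1)),
        mul_comm (E (T 1))]
    show ZLau.phiE _ _ _ (evL (⁅D, E⁆ (T 1))) = _
    rw [h]
    exact ZLau.phiE_lie laurentD evL Vd_evL WeylLoc.d0_lau WeylLoc.d1_lau (WeylLoc.d_comm 0 1)
      (D (T 1)) (E (T 1))

theorem smul_laurentD_T (f : ℂ[T;T⁻¹]) : (f • laurentD : WFull) (T 1) = f := by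
  rw [Derivation.smul_apply, laurentD_T]
  simp

theorem phiLoc_mk (f : ℂ[T;T⁻¹]) : phiLoc (f • laurentD) =
    ZLau.phiE WeylLoc.lau (WeylLoc.d 0) (WeylLoc.d 1) (evL f) := by
  show ZLau.phiE _ _ _ (evL ((f • laurentD : WFull) (T 1))) = _
  rw [smul_laurentD_T]

theorem psiLocLie_mk {l : ℕ} (n : Fin l → ℕ) (f : ℂ[T;T⁻¹]) :
    psiLocLie n (f • laurentD) = psiLocFun n f := by
  show psiLocFun n ((f • laurentD : WFull) (T 1)) = _
  rw [smul_laurentD_T]

/-- The derivations `∂/∂s₁`, `∂/∂s₂` of `SL`. -/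
def dLs : Fin 2 → Derivation ℂ SL SL := ![dL₁, dL₂]

/-- The coordinates of `SL` and their inverses. -/
def sLs : Fin 2 → SL := ![mon 1 0, mon 0 1]

/-- The inverses of the coordinates of `SL`. -/
def sLinv : Fin 2 → SL := ![mon (-1) 0, mon 0 (-1)]

theorem dLs_sLs (i j : Fin 2) : dLs i (sLs j) = if i = j then 1 else 0 := by
  fin_cases i <;> fin_cases j <;> simp [dLs, sLs, dL₁_mon, dL₂_mon, mon_zero]

theorem sLs_mul (i : Fin 2) : sLs i * sLinv i = 1 := by
  fin_cases i <;> simp [sLs, sLinv, mon_mul, mon_zero]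

theorem dLs_comm (i j : Fin 2) (f : SL) : dLs i (dLs j f) = dLs j (dLs i f) := by
  refine SL_induction (P := fun f => dLs i (dLs j f) = dLs j (dLs i f)) f ?_ ?_ ?_
  · intro a b
    fin_cases i <;> fin_cases j <;> simp [dLs, dL₁_mon, dL₂_mon, smul_smul, mul_comm]
  · intro f g hf hg
    show dLs i (dLs j (f + g)) = dLs j (dLs i (f + g))
    rw [map_add, map_add, map_add, map_add, hf, hg]
  · intro c f hf
    show dLs i (dLs j (c • f)) = dLs j (dLs i (c • f))
    rw [Derivation.map_smul, Derivation.map_smul, Derivation.map_smul, Derivation.map_smul, hf]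

/-- The derivations, as operators. -/
def dLE (i : Fin 2) : Module.End ℂ SL := (dLs i : SL →ₗ[ℂ] SL)

theorem dLE_apply (i : Fin 2) (f : SL) : dLE i f = dLs i f := rfl

theorem dLE_comm (i j : Fin 2) : dLE i * dLE j = dLE j * dLE i := by
  apply LinearMap.ext
  intro f
  exact dLs_comm i j f

theorem dLE_M (i j : Fin 2) : dLE i * Setup.M (sLs j) =
    Setup.M (sLs j) * dLE i + if i = j then 1 else 0 := by
  apply LinearMap.ext
  intro f
  rw [Module.End.mul_apply, LinearMap.add_apply, Module.End.mul_apply, dLE_apply,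
    Algebra.coe_lmul_eq_mul, LinearMap.mul_apply', LinearMap.mul_apply', dLE_apply,
    Derivation.leibniz, dLs_sLs]
  by_cases h : i = j
  · rw [if_pos h, if_pos h]; simp
  · rw [if_neg h, if_neg h]; simp

/-- The generators of `Ã_2`, acting on Laurent polynomials. -/
def repLocGen : LocGen 2 → Module.End ℂ SL
  | LocGen.t i => Setup.M (sLs i)
  | LocGen.tinv i => Setup.M (sLinv i)
  | LocGen.d i => dLE i

theorem repLocGen_rel (x y : FreeAlgebra ℂ (LocGen 2)) (h : WeylLocRel 2 x y) :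
    FreeAlgebra.lift ℂ repLocGen x = FreeAlgebra.lift ℂ repLocGen y := by
  cases h with
  | tt i j =>
    rw [map_mul, map_mul, FreeAlgebra.lift_ι_apply, FreeAlgebra.lift_ι_apply]
    exact Setup.M_comm _ _
  | dd i j =>
    rw [map_mul, map_mul, FreeAlgebra.lift_ι_apply, FreeAlgebra.lift_ι_apply]
    exact dLE_comm i j
  | dt i j =>
    rw [map_add, map_mul, map_mul, FreeAlgebra.lift_ι_apply, FreeAlgebra.lift_ι_apply]
    refine (dLE_M i j).trans ?_
    by_cases h : i = j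
    · rw [if_pos h, if_pos h, map_one]; rfl
    · rw [if_neg h, if_neg h, map_zero]; rfl
  | mul_inv i =>
    rw [map_mul, map_one, FreeAlgebra.lift_ι_apply, FreeAlgebra.lift_ι_apply]
    show Setup.M (sLs i) * Setup.M (sLinv i) = 1
    rw [← map_mul, sLs_mul, map_one]
  | inv_mul i =>
    rw [map_mul, map_one, FreeAlgebra.lift_ι_apply, FreeAlgebra.lift_ι_apply]
    show Setup.M (sLinv i) * Setup.M (sLs i) = 1
    rw [← map_mul, mul_comm, sLs_mul, map_one]

/-- The action of `Ã_2` on Laurent polynomials. -/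
def repLoc : WeylLoc 2 →ₐ[ℂ] Module.End ℂ SL :=
  RingQuot.liftAlgHom ℂ ⟨FreeAlgebra.lift ℂ repLocGen, repLocGen_rel⟩

theorem repLoc_mk (a : FreeAlgebra ℂ (LocGen 2)) :
    repLoc (WeylLoc.mk 2 a) = FreeAlgebra.lift ℂ repLocGen a :=
  RingQuot.liftAlgHom_mkAlgHom_apply ℂ _ _ a

theorem repLoc_t (i : Fin 2) : repLoc (WeylLoc.t i) = Setup.M (sLs i) := by
  rw [WeylLoc.t, repLoc_mk, FreeAlgebra.lift_ι_apply]; rfl

theorem repLoc_tinv (i : Fin 2) : repLoc (WeylLoc.tinv i) = Setup.M (sLinv i) := by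
  rw [WeylLoc.tinv, repLoc_mk, FreeAlgebra.lift_ι_apply]; rfl

theorem repLoc_d (i : Fin 2) : repLoc (WeylLoc.d i) = dLE i := by
  rw [WeylLoc.d, repLoc_mk, FreeAlgebra.lift_ι_apply]; rfl

theorem repLoc_lau (c : SL) : repLoc (WeylLoc.lau c) = Setup.M c := by
  have key : ∀ c : SL, c ∈ AlgHom.equalizer (repLoc.comp WeylLoc.lau) (Setup.M (S := SL)) := by
    intro c
    refine SL_mem _ ?_ ?_ ?_ ?_ c
    · rw [AlgHom.mem_equalizer, AlgHom.comp_apply, WeylLoc.lau_10, repLoc_t]; rfl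
    · rw [AlgHom.mem_equalizer, AlgHom.comp_apply, WeylLoc.lau_01, repLoc_t]; rfl
    · rw [AlgHom.mem_equalizer, AlgHom.comp_apply, WeylLoc.lau_10', repLoc_tinv]; rfl
    · rw [AlgHom.mem_equalizer, AlgHom.comp_apply, WeylLoc.lau_01', repLoc_tinv]; rfl
  exact key c

theorem repLoc_phiE (r : ZLau.R) :
    repLoc (ZLau.phiE WeylLoc.lau (WeylLoc.d 0) (WeylLoc.d 1) r) =
      ZLau.phiE Setup.M (ZLau.d₁ : Module.End ℂ _) (ZLau.d₂ : Module.End ℂ _) r := by
  simp only [Setup.phiE, map_add, map_mul, repLoc_lau, repLoc_d]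
  rfl

instance : IsDomain SL := inferInstance

theorem repLoc_mem (a : WeylLoc 2) : repLoc a ∈ (ZLau.pair ZLau_good).sub := by
  obtain ⟨b, rfl⟩ : ∃ b, WeylLoc.mk 2 b = a := RingQuot.mkAlgHom_surjective ℂ _ a
  rw [repLoc_mk]
  induction b with
  | grade0 r => rw [AlgHom.commutes]; exact Subalgebra.algebraMap_mem _ r
  | grade1 x =>
    rw [FreeAlgebra.lift_ι_apply]
    rcases x with i | i | i
    · exact ZLau.M_mem ZLau_good _
    · exact ZLau.M_mem ZLau_good _
    · exact der_mem ZLau ZLau_good _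
  | mul a b ha hb => rw [map_mul]; exact mul_mem ha hb
  | add a b ha hb => rw [map_add]; exact add_mem ha hb

theorem laurentD_toLaurent (f : ℂ[X]) : laurentD (toLaurent f) = toLaurent (polyD f) := by
  have key : ∀ f : ℂ[X], f ∈ goodSub polyD (toLaurentAlg (R := ℂ)) (0 : ℂ[T;T⁻¹]) → True :=
    fun _ _ => trivial
  induction f using Polynomial.induction_on' with
  | add p q hp hq => rw [map_add, map_add, hp, hq, map_add, map_add]
  | monomial n a =>
    rw [← Polynomial.C_mul_X_pow_eq_monomial, toLaurent_C_mul_X_pow, ← LaurentPolynomial.smul_eq_C_mul,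
      Derivation.map_smul, laurentD_T]
    simp only [derivative'_apply, derivative_C_mul_X_pow]
    rw [toLaurent_C_mul_X_pow, ← LaurentPolynomial.smul_eq_C_mul]
    rcases n with _ | n
    · simp
    · rw [smul_smul]
      congr 1
      congr 1
      push_cast
      simp

theorem dpow_toLaurent (k : ℕ) (f : ℂ[X]) :
    dpow laurentD k (toLaurent f) = toLaurent (dpow polyD k f) := by
  have h : ∀ k : ℕ, ∀ f : ℂ[X], ((laurentD : ℂ[T;T⁻¹] →ₗ[ℂ] ℂ[T;T⁻¹]) ^ k) (toLaurent f) =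
      toLaurent (((polyD : ℂ[X] →ₗ[ℂ] ℂ[X]) ^ k) f) := by
    intro k
    induction k with
    | zero => intro f; rfl
    | succ k ih =>
      intro f
      rw [pow_succ, pow_succ, Module.End.mul_apply, Module.End.mul_apply, ← ih]
      congr 1
      exact laurentD_toLaurent f
  rw [dpow, dpow, LinearMap.smul_apply, LinearMap.smul_apply, h, ← toLaurentAlg_apply,
    ← toLaurentAlg_apply, map_smul]

end

end Pool.Agent.WittWeyl
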